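import Pool.Agent.U73.GP.Normal
set_option autoImplicit false

/-!
# More than half of the gaps between zeta zeros exceed 0.48 times the mean gap

Let `0 < γ_1 ≤ γ_2 ≤ …` be the ordinates of the nontrivial zeros of zeta in the upper half plane (on
the critical line or not), repeated according to multiplicity.  No hypothesis is assumed.  The mean
gap is `2 π / log T`; `c(h)` is the constant of the window of Montgomery and Taylor for the bandwidth
`h` (`c(1) = 1.3274…`) and `K` its kernel.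

1. In every interval `(T, T + H]`, `T ^ h ≤ H ≤ T`, the proportion of the `n` with
   `γ_{n+1} - γ_n ≥ r 2 π / log T` is at least
   `1 - max (1 + 1/(2k)) (2 / (3 K(h k r)²)) (c(h) - 1) - ε`, for each `k ≥ 1` with `h k r ≤ 1/2`.
2. The same is true of almost all intervals `(t, t + H]`, `T ^ η ≤ H ≤ T / 8`, if `2 h ≤ 1 + η`.
3. If `P` is this proportion (without `ε`), then the proportion of the `n` with
   `r 2 π / log T ≤ γ_{n+1} - γ_n ≤ R 2 π / log T` is at least `(R P - 1) / (R - r) - ε`.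
4. For example, in every interval of length at least `T ^ h₀` and in almost all intervals of length
   at least `T ^ η₀`, with certain `h₀, η₀ < 1`, the gap is at least `0.48` times the mean gap for more
   than `50.8` per cent of all `n`, at least `0.21` times the mean gap for `59` per cent, at least
   `0.1` times the mean gap for `63.1` per cent (for `r → 0` the bound tends to `67.25` per cent);
   it is between `0.48` and `3` times the mean gap for more than `20` per cent, and between `0.48` and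
   `2` times the mean gap for more than `1` per cent.

Proof.  Let `S` be the set of the simple critical zeros. The consecutive pairs of `S` at distance at
most `ρ` form chains, which are tested in the trace inequality with the matrix that has the entry
`K/2` at each such pair; each pair is worth `(3/2) K²`.  The ordinates of the zeros which are not in
`S` carry at least two zeros each, so that they cut at most `(N - |S|)/2` of the other gaps of `S`;
a gap of `S` larger than `ρ` which contains less than `k` of these ordinates contains a gap larger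
than `ρ / k`.
-/

open Filter Topology Complex MeasureTheory

namespace Pool.Agent.Results.MP_af3d17_nt.HalfOfTheMeanGap

/-- the nontrivial zeros of zeta -/
def zeros : Set ℂ := {s : ℂ | riemannZeta s = 0 ∧ 0 < s.re ∧ s.re < 1}

/-- the number of nontrivial zeros with ordinate in `(T₁, T₂]`, counted with multiplicity -/
noncomputable def N (T₁ T₂ : ℝ) : ℕ :=
  ∑ᶠ s ∈ {s ∈ zeros | T₁ < s.im ∧ s.im ≤ T₂}, analyticOrderNatAt riemannZeta s

/-- the `n`-th positive ordinate `γ_n` (`n ≥ 1`), in nondecreasing order and repeated according to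
multiplicity: the least `t` with at least `n` zeros in `(0, t]` -/
noncomputable def gam (n : ℕ) : ℝ := sInf {t : ℝ | n ≤ N 0 t}

/-- the `n ≥ 1` with `T₁ < γ_n ≤ T₂` and `γ_{n+1} - γ_n ≥ d` -/
def wide (T₁ T₂ d : ℝ) : Set ℕ :=
  {n : ℕ | 1 ≤ n ∧ T₁ < gam n ∧ gam n ≤ T₂ ∧ d ≤ gam (n + 1) - gam n}

/-- the `n ≥ 1` with `T₁ < γ_n ≤ T₂` and `d ≤ γ_{n+1} - γ_n ≤ D` -/
def normal (T₁ T₂ d D : ℝ) : Set ℕ :=
  {n : ℕ | 1 ≤ n ∧ T₁ < gam n ∧ gam n ≤ T₂ ∧ d ≤ gam (n + 1) - gam n ∧ gam (n + 1) - gam n ≤ D}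

/-- `Q T H t` holds in almost all short intervals: for all large `T`, all `T ^ η ≤ H ≤ T / 8` and
all `t ∈ [T, 2T]` outside a set of measure at most `T ^ (1 - δ)`, for some `δ > 0` -/
def AlmostAll (η : ℝ) (Q : ℝ → ℝ → ℝ → Prop) : Prop :=
  ∃ δ : ℝ, 0 < δ ∧ ∃ T₀ : ℝ, ∀ T : ℝ, T₀ ≤ T → ∀ H : ℝ, T ^ η ≤ H → H ≤ T / 8 →
    volume {t : ℝ | t ∈ Set.Icc T (2 * T) ∧ ¬ Q T H t} ≤ ENNReal.ofReal (T ^ (1 - δ))

/-- the Montgomery-Taylor kernel at `r` times the mean spacing -/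
noncomputable def K (r : ℝ) : ℝ :=
  (∫ t in (-1 / 2 : ℝ)..(1 / 2), Real.cos (Real.sqrt 2 * t) * Real.cos (2 * Real.pi * r * t)) /
    (Real.sqrt 2 * Real.sin (1 / Real.sqrt 2))

/-- the Montgomery-Taylor constant -/
noncomputable def cMT : ℝ :=
  Real.sqrt 2 * Real.tan (1 / Real.sqrt 2) / (1 + Real.tan (1 / Real.sqrt 2) / Real.sqrt 2)

/-- the mean square of the Montgomery-Taylor window, `1.0061...` -/
noncomputable def R0 : ℝ :=
  (1 + Real.sin (Real.sqrt 2) / Real.sqrt 2) / (4 * Real.sin (1 / Real.sqrt 2) ^ 2)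

/-- the constant for the bandwidth `h`; `c 1 = cMT⁻¹ = 1.3274...` -/
noncomputable def c (h : ℝ) : ℝ := R0 / h + h * (cMT⁻¹ - R0)

/-- the proportion of the gaps which are at least `r` times the mean gap -/
noncomputable def P (h r : ℝ) (k : ℕ) : ℝ :=
  1 - max (1 + 1 / (2 * (k : ℝ))) (2 / (3 * K (h * (k * r)) ^ 2)) * (c h - 1)

lemma wide_eq : wide = Pool.Agent.U73.GP.wide := rfl

lemma normal_eq : normal = Pool.Agent.U73.GP.normal := rfl

lemma N_eq (T₁ T₂ : ℝ) : N T₁ T₂ = H370.NN riemannZeta T₁ T₂ :=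
  Pool.Agent.U73.NG.N_eq T₁ T₂

/-- the sets of indices that are counted are finite -/
theorem wide_finite (T₁ T₂ d : ℝ) : (wide T₁ T₂ d).Finite :=
  Pool.Agent.U73.GP.wide_finite T₁ T₂ d

/-- the sets of indices that are counted are finite -/
theorem normal_finite (T₁ T₂ d D : ℝ) : (normal T₁ T₂ d D).Finite :=
  Pool.Agent.U73.GP.normal_finite T₁ T₂ d D

lemma c_eq {h : ℝ} (_hh : 0 < h) : c h = H295Iso.c0 h := by
  have h1 : cMT⁻¹ = H370.cMTinv := H370.cMTinv_eq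
  have h2 := H228SI.constS 1 one_pos le_rfl
  have h4 : Real.sqrt 2 / 2 = 1 / Real.sqrt 2 := by
    rw [div_eq_div_iff (by norm_num) (by positivity), Real.mul_self_sqrt (by norm_num), one_mul]
  have h3 : H295SI.RS (Real.sqrt 2) 0 = R0 := by
    unfold H295SI.RS R0
    have hs : Real.sqrt 2 ^ 2 = 2 := Real.sq_sqrt (by norm_num)
    rw [if_pos (by norm_num), hs, h4]
    simp only [abs_zero, sub_zero, mul_zero, Real.cos_zero, mul_one]
    ring
  have h5 : H295SI.cc 1 = H370.cMTinv := by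
    unfold H295SI.cc H370.cMTinv
    rfl
  rw [mul_one, h5] at h2
  unfold c H295Iso.c0 H295SI.cR
  unfold H295SI.cR at h2
  rw [h3] at h2 ⊢
  rw [h1, ← h2]
  ring

lemma K_eq (r : ℝ) : K r = H344.KK r := by
  have h := H370.GramAux.kap_re_mul (2 * Real.pi * r)
  have hd := H370.GramAux.den_pos.ne'
  unfold K H344.KK
  rw [← h, mul_div_cancel_left₀ _ hd]

lemma P_eq {h : ℝ} (hh : 0 < h) (r : ℝ) (k : ℕ) :
    P h r k = 1 - Pool.Agent.U73.GP.mu (h * (k * r)) k * (H295Iso.c0 h - 1) := by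
  unfold P Pool.Agent.U73.GP.mu
  rw [K_eq, c_eq hh]

/-- 1: all short intervals -/
theorem part1 (h r ε : ℝ) (k : ℕ) (hk : 1 ≤ k) (hh : 0 < h) (hh1 : h ≤ 1) (hr0 : 0 ≤ r)
    (hr : h * (k * r) ≤ 1 / 2) (hε : 0 < ε) :
    ∃ T₀ : ℝ, ∀ T : ℝ, T₀ ≤ T → ∀ H : ℝ, T ^ h ≤ H → H ≤ T →
      (P h r k - ε) * (N T (T + H) : ℝ) ≤
        ((wide T (T + H) (2 * Real.pi * r / Real.log T)).ncard : ℝ) := by
  obtain ⟨T0, -, h1⟩ := Pool.Agent.U73.GP.gp_short hk hh hh1 hr0 hr hε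
  refine ⟨T0, fun T hT H hH1 hH2 => ?_⟩
  rw [P_eq hh, N_eq, wide_eq]
  exact h1 T hT H hH1 hH2

/-- 2: almost all very short intervals -/
theorem part2 (η h r ε : ℝ) (k : ℕ) (hk : 1 ≤ k) (hη0 : 0 < η) (hη1 : η < 1) (hh : 0 < h)
    (hh1 : 2 * h ≤ 1 + η) (hr0 : 0 ≤ r) (hr : h * (k * r) ≤ 1 / 2) (hε : 0 < ε) :
    AlmostAll η fun T H t => (P h r k - ε) * (N t (t + H) : ℝ) ≤
        ((wide t (t + H) (2 * Real.pi * r / Real.log T)).ncard : ℝ) := by
  have hz := Pool.Agent.Y796.PA.bz_prim (1 : DirichletCharacter ℂ 1)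
    DirichletCharacter.isPrimitive_one_level_one
  rw [DirichletCharacter.LFunction_modOne_eq] at hz
  refine Pool.Agent.Y796.PA.aa_mono (T1 := 1) (Pool.Agent.U73.GP.gp_aa hz hk hη0 hη1 hh hh1 hr0
    hr hε) ?_
  intro T _ t _ H _ h1
  rw [P_eq hh, N_eq, wide_eq]
  exact h1

/-- 3: gaps of the size of the mean gap in all short intervals -/
theorem part3 (h r R ε : ℝ) (k : ℕ) (hk : 1 ≤ k) (hh : 0 < h) (hh1 : h ≤ 1) (hr0 : 0 ≤ r)
    (hrR : r < R) (hr : h * (k * r) ≤ 1 / 2) (hε : 0 < ε) :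
    ∃ T₀ : ℝ, ∀ T : ℝ, T₀ ≤ T → ∀ H : ℝ, T ^ h ≤ H → H ≤ T →
      ((R * P h r k - 1) / (R - r) - ε) * (N T (T + H) : ℝ) ≤
        ((normal T (T + H) (2 * Real.pi * r / Real.log T)
          (2 * Real.pi * R / Real.log T)).ncard : ℝ) := by
  obtain ⟨T0, -, h1⟩ := Pool.Agent.U73.GP.normal_short hk hh hh1 hr0 hrR hr hε
  refine ⟨T0, fun T hT H hH1 hH2 => ?_⟩
  rw [P_eq hh, N_eq, normal_eq]
  exact h1 T hT H hH1 hH2

/-- 3: gaps of the size of the mean gap in almost all very short intervals -/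
theorem part4 (η h r R ε : ℝ) (k : ℕ) (hk : 1 ≤ k) (hη0 : 0 < η) (hη1 : η < 1) (hh : 0 < h)
    (hh1 : 2 * h ≤ 1 + η) (hr0 : 0 ≤ r) (hrR : r < R) (hr : h * (k * r) ≤ 1 / 2) (hε : 0 < ε) :
    AlmostAll η fun T H t => ((R * P h r k - 1) / (R - r) - ε) * (N t (t + H) : ℝ) ≤
        ((normal t (t + H) (2 * Real.pi * r / Real.log T)
          (2 * Real.pi * R / Real.log T)).ncard : ℝ) := by
  have hz := Pool.Agent.Y796.PA.bz_prim (1 : DirichletCharacter ℂ 1)
    DirichletCharacter.isPrimitive_one_level_one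
  rw [DirichletCharacter.LFunction_modOne_eq] at hz
  refine Pool.Agent.Y796.PA.aa_mono (T1 := 1) (Pool.Agent.U73.GP.normal_aa hz hk hη0 hη1 hh hh1
    hr0 hrR hr hε) ?_
  intro T _ t _ H _ h1
  rw [P_eq hh, N_eq, normal_eq]
  exact h1

/-- the values of the kernel -/
theorem kernel_values : 0.68 ≤ K 0.48 ∧ 0.735 ≤ K 0.43 ∧ 0.77 ≤ K 0.4 := by
  have h3 := Real.pi_lt_d4
  have h4 := Real.pi_gt_d4
  refine ⟨?_, ?_, ?_⟩
  · rw [K_eq]
    refine Pool.Agent.U73.GP.KK_num (w0 := 9.09) (w1 := 9.1) (by norm_num) (by norm_num)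
      (by norm_num) (by norm_num) ?_ ?_ (by norm_num)
    · norm_num at h4 ⊢; nlinarith
    · norm_num at h3 ⊢; nlinarith
  · rw [K_eq]
    refine Pool.Agent.U73.GP.KK_num (w0 := 7.29) (w1 := 7.3) (by norm_num) (by norm_num)
      (by norm_num) (by norm_num) ?_ ?_ (by norm_num)
    · norm_num at h4 ⊢; nlinarith
    · norm_num at h3 ⊢; nlinarith
  · rw [K_eq]
    refine Pool.Agent.U73.GP.KK_num (w0 := 6.31) (w1 := 6.32) (by norm_num) (by norm_num)
      (by norm_num) (by norm_num) ?_ ?_ (by norm_num)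
    · norm_num at h4 ⊢; nlinarith
    · norm_num at h3 ⊢; nlinarith

/-- lower bounds for the proportion -/
lemma P_ge {h x v b p : ℝ} {k : ℕ} (hh : 0 < h) (hh1 : h ≤ 1) (r : ℝ) (hr0 : 0 ≤ r)
    (hx : k * r = x) (hx1 : x ≤ 1 / 2) (hv : v ≤ K x) (hv0 : 0 < v)
    (hb1 : 1 + 1 / (2 * (k : ℝ)) ≤ b) (hb2 : 2 ≤ b * (3 * v ^ 2)) (hc : c h ≤ 1.3276)
    (hp : p ≤ 1 - b * 0.3276) : p ≤ P h r k := by
  have hkr : 0 ≤ (k : ℝ) * r := by positivity
  have hb0 : 0 ≤ b := le_trans (by positivity) hb1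
  have h1 : v ≤ K (h * (k * r)) := by
    refine hv.trans ?_
    rw [K_eq, K_eq]
    refine Pool.Agent.U73.WS.KK_anti (by positivity) ?_ hx1
    rw [hx] at hkr ⊢
    nlinarith
  have h2 : v ^ 2 ≤ K (h * (k * r)) ^ 2 := pow_le_pow_left₀ hv0.le h1 2
  have h3 : 2 / (3 * K (h * (k * r)) ^ 2) ≤ b := by
    have h4 : 0 < v ^ 2 := by positivity
    rw [div_le_iff₀ (by linarith)]
    nlinarith
  have h5 : max (1 + 1 / (2 * (k : ℝ))) (2 / (3 * K (h * (k * r)) ^ 2)) ≤ b := max_le hb1 h3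
  have h6 : 0 ≤ max (1 + 1 / (2 * (k : ℝ))) (2 / (3 * K (h * (k * r)) ^ 2)) :=
    le_trans (by positivity) (le_max_left _ _)
  unfold P
  set m := max (1 + 1 / (2 * (k : ℝ))) (2 / (3 * K (h * (k * r)) ^ 2)) with hm
  have h7 : m * (c h - 1) ≤ m * 0.3276 := by
    apply mul_le_mul_of_nonneg_left _ h6
    norm_num at hc ⊢
    linarith
  have h8 : m * 0.3276 ≤ b * 0.3276 := mul_le_mul_of_nonneg_right h5 (by norm_num)
  linarith

/-- the constant is continuous at `1` -/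
lemma h0_exists : ∃ h₀ : ℝ, 3 / 4 ≤ h₀ ∧ h₀ < 1 ∧ c h₀ ≤ 1.3276 := by
  have hcont := H295Iso.c0_cont (h := 1) one_pos
  have hc1 : H370.cMTinv ≤ 1.3275 := Pool.Agent.W354.ZP.cMTinv_sharp
  have h1 : ∀ᶠ x in 𝓝 (1 : ℝ), H295Iso.c0 x < H370.cMTinv + 0.0001 := by
    apply hcont.eventually (gt_mem_nhds _)
    rw [Pool.Agent.H24R3.PairsShort.c0_one]
    norm_num
  rw [Metric.eventually_nhds_iff] at h1
  obtain ⟨d, hd0, hd⟩ := h1
  have h4 : min (d / 2) (1 / 4) ≤ 1 / 4 := min_le_right _ _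
  have h5 : 0 < min (d / 2) (1 / 4) := by positivity
  refine ⟨1 - min (d / 2) (1 / 4), by linarith, by linarith, ?_⟩
  rw [c_eq (by linarith)]
  have h6 := hd (y := 1 - min (d / 2) (1 / 4)) (by
    rw [Real.dist_eq, show 1 - min (d / 2) (1 / 4) - 1 = -min (d / 2) (1 / 4) by ring, abs_neg,
      abs_of_pos h5]
    exact lt_of_le_of_lt (min_le_left _ _) (by linarith))
  norm_num at h6 hc1 ⊢
  linarith

lemma P_values {h : ℝ} (hh : 0 < h) (hh1 : h ≤ 1) (hc : c h ≤ 1.3276) :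
    0.5086 ≤ P h 0.48 1 ∧ 0.5905 ≤ P h 0.21 2 ∧ 0.6314 ≤ P h 0.1 4 := by
  obtain ⟨k1, k2, k3⟩ := kernel_values
  refine ⟨?_, ?_, ?_⟩
  · exact P_ge (x := 0.48) (v := 0.68) (b := 3 / 2) hh hh1 0.48 (by norm_num) (by norm_num)
      (by norm_num) k1 (by norm_num) (by norm_num) (by norm_num) hc (by norm_num)
  · refine P_ge (x := 0.42) (v := 0.735) (b := 5 / 4) hh hh1 0.21 (by norm_num) (by norm_num)
      (by norm_num) (k2.trans ?_) (by norm_num) (by norm_num) (by norm_num) hc (by norm_num)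
    rw [K_eq, K_eq]
    exact Pool.Agent.U73.WS.KK_anti (by norm_num) (by norm_num) (by norm_num)
  · exact P_ge (x := 0.4) (v := 0.77) (b := 9 / 8) hh hh1 0.1 (by norm_num) (by norm_num)
      (by norm_num) k3 (by norm_num) (by norm_num) (by norm_num) hc (by norm_num)

/-- the conclusion for an interval `(t, t + H]`, with the mean gap `2 π / log T` -/
def Examples (T H t : ℝ) : Prop :=
  0.508 * (N t (t + H) : ℝ) ≤ ((wide t (t + H) (0.48 * (2 * Real.pi / Real.log T))).ncard : ℝ) ∧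
  0.59 * (N t (t + H) : ℝ) ≤ ((wide t (t + H) (0.21 * (2 * Real.pi / Real.log T))).ncard : ℝ) ∧
  0.631 * (N t (t + H) : ℝ) ≤ ((wide t (t + H) (0.1 * (2 * Real.pi / Real.log T))).ncard : ℝ) ∧
  0.2 * (N t (t + H) : ℝ) ≤ ((normal t (t + H) (0.48 * (2 * Real.pi / Real.log T))
    (3 * (2 * Real.pi / Real.log T))).ncard : ℝ) ∧
  0.01 * (N t (t + H) : ℝ) ≤ ((normal t (t + H) (0.48 * (2 * Real.pi / Real.log T))
    (2 * (2 * Real.pi / Real.log T))).ncard : ℝ)

lemma ex_of {h T H t : ℝ} (hh : 0 < h) (hh1 : h ≤ 1) (hc : c h ≤ 1.3276)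
    (a1 : (P h 0.48 1 - 0.0001) * (N t (t + H) : ℝ) ≤
      ((wide t (t + H) (2 * Real.pi * 0.48 / Real.log T)).ncard : ℝ))
    (a2 : (P h 0.21 2 - 0.0001) * (N t (t + H) : ℝ) ≤
      ((wide t (t + H) (2 * Real.pi * 0.21 / Real.log T)).ncard : ℝ))
    (a3 : (P h 0.1 4 - 0.0001) * (N t (t + H) : ℝ) ≤
      ((wide t (t + H) (2 * Real.pi * 0.1 / Real.log T)).ncard : ℝ))
    (a4 : ((3 * P h 0.48 1 - 1) / (3 - 0.48) - 0.0001) * (N t (t + H) : ℝ) ≤
      ((normal t (t + H) (2 * Real.pi * 0.48 / Real.log T)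
        (2 * Real.pi * 3 / Real.log T)).ncard : ℝ))
    (a5 : ((2 * P h 0.48 1 - 1) / (2 - 0.48) - 0.0001) * (N t (t + H) : ℝ) ≤
      ((normal t (t + H) (2 * Real.pi * 0.48 / Real.log T)
        (2 * Real.pi * 2 / Real.log T)).ncard : ℝ)) : Examples T H t := by
  obtain ⟨p1, p2, p3⟩ := P_values hh hh1 hc
  have hN : 0 ≤ (N t (t + H) : ℝ) := Nat.cast_nonneg _
  have e : ∀ r : ℝ, 2 * Real.pi * r / Real.log T = r * (2 * Real.pi / Real.log T) :=
    fun r => by ring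
  rw [e] at a1 a2 a3
  rw [e, e] at a4 a5
  refine ⟨le_trans (mul_le_mul_of_nonneg_right ?_ hN) a1,
    le_trans (mul_le_mul_of_nonneg_right ?_ hN) a2, le_trans (mul_le_mul_of_nonneg_right ?_ hN) a3,
    le_trans (mul_le_mul_of_nonneg_right ?_ hN) a4, le_trans (mul_le_mul_of_nonneg_right ?_ hN) a5⟩
  · norm_num at p1 ⊢; linarith
  · norm_num at p2 ⊢; linarith
  · norm_num at p3 ⊢; linarith
  · have : 0.2001 ≤ (3 * P h 0.48 1 - 1) / (3 - 0.48) := by
      rw [le_div_iff₀ (by norm_num)]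
      norm_num at p1 ⊢; linarith
    norm_num at this ⊢; linarith
  · have : 0.0101 ≤ (2 * P h 0.48 1 - 1) / (2 - 0.48) := by
      rw [le_div_iff₀ (by norm_num)]
      norm_num at p1 ⊢; linarith
    norm_num at this ⊢; linarith

/-- 4: examples -/
theorem part5 : ∃ h₀ η₀ : ℝ, 0 < h₀ ∧ h₀ < 1 ∧ 0 < η₀ ∧ η₀ < 1 ∧
    (∃ T₀ : ℝ, ∀ T : ℝ, T₀ ≤ T → ∀ H : ℝ, T ^ h₀ ≤ H → H ≤ T → Examples T H T) ∧
    AlmostAll η₀ Examples := by
  obtain ⟨h₀, h1, h2, h3⟩ := h0_exists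
  have hh0 : 0 < h₀ := by linarith
  refine ⟨h₀, 2 * h₀ - 1, hh0, h2, by linarith, by linarith, ?_, ?_⟩
  · obtain ⟨T1, a1⟩ := part1 h₀ 0.48 0.0001 1 le_rfl hh0 h2.le (by norm_num)
      (by norm_num; linarith) (by norm_num)
    obtain ⟨T2, a2⟩ := part1 h₀ 0.21 0.0001 2 (by norm_num) hh0 h2.le (by norm_num)
      (by norm_num; linarith) (by norm_num)
    obtain ⟨T3, a3⟩ := part1 h₀ 0.1 0.0001 4 (by norm_num) hh0 h2.le (by norm_num)
      (by norm_num; linarith) (by norm_num)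
    obtain ⟨T4, a4⟩ := part3 h₀ 0.48 3 0.0001 1 le_rfl hh0 h2.le (by norm_num) (by norm_num)
      (by norm_num; linarith) (by norm_num)
    obtain ⟨T5, a5⟩ := part3 h₀ 0.48 2 0.0001 1 le_rfl hh0 h2.le (by norm_num) (by norm_num)
      (by norm_num; linarith) (by norm_num)
    refine ⟨max T1 (max T2 (max T3 (max T4 T5))), fun T hT H hH1 hH2 => ?_⟩
    have b1 : T1 ≤ T := (le_max_left _ _).trans hT
    have b2 : T2 ≤ T := ((le_max_left _ _).trans (le_max_right _ _)).trans hT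
    have b3 : T3 ≤ T :=
      (((le_max_left _ _).trans (le_max_right _ _)).trans (le_max_right _ _)).trans hT
    have b4 : T4 ≤ T := ((((le_max_left _ _).trans (le_max_right _ _)).trans
      (le_max_right _ _)).trans (le_max_right _ _)).trans hT
    have b5 : T5 ≤ T := ((((le_max_right _ _).trans (le_max_right _ _)).trans
      (le_max_right _ _)).trans (le_max_right _ _)).trans hT
    exact ex_of hh0 h2.le h3 (a1 T b1 H hH1 hH2) (a2 T b2 H hH1 hH2) (a3 T b3 H hH1 hH2)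
      (a4 T b4 H hH1 hH2) (a5 T b5 H hH1 hH2)
  · have hη0 : 0 < 2 * h₀ - 1 := by linarith
    have hη1 : 2 * h₀ - 1 < 1 := by linarith
    have a1 := part2 (2 * h₀ - 1) h₀ 0.48 0.0001 1 le_rfl hη0 hη1 hh0 (by linarith) (by norm_num)
      (by norm_num; linarith) (by norm_num)
    have a2 := part2 (2 * h₀ - 1) h₀ 0.21 0.0001 2 (by norm_num) hη0 hη1 hh0 (by linarith)
      (by norm_num) (by norm_num; linarith) (by norm_num)
    have a3 := part2 (2 * h₀ - 1) h₀ 0.1 0.0001 4 (by norm_num) hη0 hη1 hh0 (by linarith)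
      (by norm_num) (by norm_num; linarith) (by norm_num)
    have a4 := part4 (2 * h₀ - 1) h₀ 0.48 3 0.0001 1 le_rfl hη0 hη1 hh0 (by linarith)
      (by norm_num) (by norm_num) (by norm_num; linarith) (by norm_num)
    have a5 := part4 (2 * h₀ - 1) h₀ 0.48 2 0.0001 1 le_rfl hη0 hη1 hh0 (by linarith)
      (by norm_num) (by norm_num) (by norm_num; linarith) (by norm_num)
    have b := Pool.Agent.Y796.PA.aa_and (Pool.Agent.Y796.PA.aa_and a1 a2)
      (Pool.Agent.Y796.PA.aa_and a3 (Pool.Agent.Y796.PA.aa_and a4 a5))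
    refine Pool.Agent.Y796.PA.aa_mono (T1 := 1) b ?_
    rintro T - t - H - ⟨⟨g1, g2⟩, g3, g4, g5⟩
    exact ex_of hh0 h2.le h3 g1 g2 g3 g4 g5

/-- **most gaps are larger than 0.48 times the mean gap** -/
theorem result :
    -- 1: all short intervals
    (∀ (h r ε : ℝ) (k : ℕ), 1 ≤ k → 0 < h → h ≤ 1 → 0 ≤ r → h * (k * r) ≤ 1 / 2 → 0 < ε →
      ∃ T₀ : ℝ, ∀ T : ℝ, T₀ ≤ T → ∀ H : ℝ, T ^ h ≤ H → H ≤ T →
        (P h r k - ε) * (N T (T + H) : ℝ) ≤
          ((wide T (T + H) (2 * Real.pi * r / Real.log T)).ncard : ℝ)) ∧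
    -- 2: almost all very short intervals
    (∀ (η h r ε : ℝ) (k : ℕ), 1 ≤ k → 0 < η → η < 1 → 0 < h → 2 * h ≤ 1 + η → 0 ≤ r →
      h * (k * r) ≤ 1 / 2 → 0 < ε →
      AlmostAll η fun T H t => (P h r k - ε) * (N t (t + H) : ℝ) ≤
        ((wide t (t + H) (2 * Real.pi * r / Real.log T)).ncard : ℝ)) ∧
    -- 3: gaps of the size of the mean gap
    (∀ (h r R ε : ℝ) (k : ℕ), 1 ≤ k → 0 < h → h ≤ 1 → 0 ≤ r → r < R → h * (k * r) ≤ 1 / 2 →
      0 < ε → ∃ T₀ : ℝ, ∀ T : ℝ, T₀ ≤ T → ∀ H : ℝ, T ^ h ≤ H → H ≤ T →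
        ((R * P h r k - 1) / (R - r) - ε) * (N T (T + H) : ℝ) ≤
          ((normal T (T + H) (2 * Real.pi * r / Real.log T)
            (2 * Real.pi * R / Real.log T)).ncard : ℝ)) ∧
    (∀ (η h r R ε : ℝ) (k : ℕ), 1 ≤ k → 0 < η → η < 1 → 0 < h → 2 * h ≤ 1 + η → 0 ≤ r → r < R →
      h * (k * r) ≤ 1 / 2 → 0 < ε →
      AlmostAll η fun T H t => ((R * P h r k - 1) / (R - r) - ε) * (N t (t + H) : ℝ) ≤
        ((normal t (t + H) (2 * Real.pi * r / Real.log T)
          (2 * Real.pi * R / Real.log T)).ncard : ℝ)) ∧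
    -- 4: examples
    (∃ h₀ η₀ : ℝ, 0 < h₀ ∧ h₀ < 1 ∧ 0 < η₀ ∧ η₀ < 1 ∧
      (∃ T₀ : ℝ, ∀ T : ℝ, T₀ ≤ T → ∀ H : ℝ, T ^ h₀ ≤ H → H ≤ T → Examples T H T) ∧
      AlmostAll η₀ Examples) ∧
    -- the values of the kernel
    (0.68 ≤ K 0.48 ∧ 0.735 ≤ K 0.43 ∧ 0.77 ≤ K 0.4) :=
  ⟨part1, part2, part3, part4, part5, kernel_values⟩

end Pool.Agent.Results.MP_af3d17_nt.HalfOfTheMeanGap
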