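import Pool.Agent.Results.MP_af3d17_nt.HalfOfTheMeanGap
import Pool.Agent.U265.ZG.Met

/-!
# Normal gaps between zeta zeros in ALL short intervals near the multiples of a real number

Let `γ_n` be the ordinates of the nontrivial zeros of zeta, with multiplicity. The file `HalfOfTheMeanGap` (helper73) shows without any
hypothesis that at least the proportion `P h r k - ε` of the gaps `γ_{n+1} - γ_n` are at least `r` times the mean gap, in almost all
intervals `(t, t + H]`, `T ^ η ≤ H ≤ T / 8`: for all `t ∈ [T, 2T]` outside a set of measure at most `T ^ (1 - δ)`.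

**Theorem.** There are `κ > 0` and `D < 1`, depending only on the parameters, such that for ALL sequences `w m ≥ 1` which grow faster than
all powers of `m` (`∑ (w m) ^ (-τ) < ∞` for all `τ > 0`, for example `w m = b ^ m`) and all lengths `w_m ^ η + 2 ≤ H_m ≤ w_m / 8`: for all
`α ∈ (1, 2)` outside of a set of Hausdorff dimension at most `D`, for all large `m`, ALL the intervals `(t, t + H_m]`,
`|t - α w_m| ≤ w_m ^ κ`, contain this proportion of large gaps (1), and the proportion `(R P - 1) / (R - r) - ε` of gaps between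
`r` and `R` times the mean gap (2). (Since `w` is arbitrary the same is true for `α` in any other bounded interval of positive
numbers.) So the exceptional intervals, if there are any, do not come near the multiples `α w_m` of almost all `α`.

The proof: if the interval at `t'` is exceptional, then so are, with `ε / 2` and the length `H - 2`, all the intervals at the points
of an interval of length one; hence the number of the integers near exceptional points is at most `T ^ (1 - δ)`; covers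
(`Pool.Agent.U265.ZG.metric`, from `Pool.Agent.N84.MD.core` of the starting library).
-/

set_option autoImplicit false

namespace Pool.Agent.Results.MP_af3d17_nt.MetricNormalGaps

open Filter MeasureTheory
open Pool.Agent.Results.MP_af3d17_nt.HalfOfTheMeanGap (N wide normal P AlmostAll wide_finite normal_finite N_eq)

/-- For all sequences `w ≥ 1` with `∑ (w m) ^ (-τ) < ∞` for all `τ > 0` and all lengths `w_m ^ η + 2 ≤ H_m ≤ w_m / 8` there is a set
`E` of Hausdorff dimension at most `D` such that for all `α ∈ (1, 2)` outside of `E`, for all large `m`, ALL `t` with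
`|t - α w_m| ≤ w_m ^ κ` have the property `Q (w m) (H m) t`. -/
def NearMultiples (η κ D : ℝ) (Q : ℝ → ℝ → ℝ → Prop) : Prop :=
  ∀ w H : ℕ → ℝ, (∀ m, 1 ≤ w m) → (∀ τ : ℝ, 0 < τ → Summable fun m => (w m) ^ (-τ)) →
    (∀ᶠ m in atTop, (w m) ^ η + 2 ≤ H m ∧ H m ≤ w m / 8) →
    ∃ E : Set ℝ, dimH E ≤ ENNReal.ofReal D ∧ ∀ α : ℝ, 1 < α → α < 2 → α ∉ E →
      ∀ᶠ m in atTop, ∀ t : ℝ, |t - α * w m| ≤ (w m) ^ κ → Q (w m) (H m) t

lemma N_add' {a b c : ℝ} (h : 1 ≤ a) (hab : a ≤ b) (hbc : b ≤ c) : N a c = N a b + N b c := by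
  rw [N_eq, N_eq, N_eq]
  exact H370.NN_add H370.good_zeta h hab hbc

/-- the zeros in an interval of length two -/
lemma N_two : ∃ C : ℝ, 0 < C ∧ ∀ a b : ℝ, 3 ≤ a → b ≤ a + 2 → (N a b : ℝ) ≤ C * Real.log (a + 1) := by
  obtain ⟨C, hC, h⟩ := H370.zcount H370.good_zeta
  refine ⟨C, hC, fun a b ha hab => ?_⟩
  have h1 := h (a + 1) (by linarith)
  have h2 : H370.NN riemannZeta a b ≤ H370.NN riemannZeta (a + 1 - 1) (a + 1 + 1) :=
    H370.NN_mono H370.good_zeta (by linarith) (by linarith) (by linarith)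
  rw [N_eq]
  have h3 : (H370.NN riemannZeta a b : ℝ) ≤ H370.NN riemannZeta (a + 1 - 1) (a + 1 + 1) := by exact_mod_cast h2
  exact h3.trans h1

/-- many zeros in the intervals of length at least `T ^ η` -/
lemma N_large {η : ℝ} (hη : 0 < η) (hη1 : η < 1) (K : ℝ) : ∃ T₀ : ℝ, 10 ≤ T₀ ∧ ∀ T : ℝ, T₀ ≤ T → ∀ H t : ℝ, T ^ η ≤ H →
    H ≤ T → T ≤ t → t ≤ 3 * T → K * Real.log T ≤ (N t (t + H) : ℝ) := by
  have hpi := Real.pi_pos
  obtain ⟨T1, hT1, h1⟩ := Pool.Agent.U73.GP.count_short (h := η / 2) (e := 1) (by positivity) (by linarith) one_pos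
  have htop : Tendsto (fun T : ℝ => T ^ η) atTop atTop := tendsto_rpow_atTop hη
  obtain ⟨T2, hT2⟩ := (htop.eventually_ge_atTop (4 * Real.pi * K)).exists_forall_of_atTop
  refine ⟨max T1 T2, hT1.trans (le_max_left _ _), fun T hT H t hH hHT htT ht3 => ?_⟩
  have hTa : T1 ≤ T := (le_max_left _ _).trans hT
  have hTb : T2 ≤ T := (le_max_right _ _).trans hT
  have hT10 : 10 ≤ T := hT1.trans hTa
  have h3 : t ^ (η / 2) ≤ H := by
    calc t ^ (η / 2) ≤ (3 * T) ^ (η / 2) := Real.rpow_le_rpow (by linarith) ht3 (by positivity)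
      _ ≤ (T * T) ^ (η / 2) := Real.rpow_le_rpow (by linarith) (by nlinarith) (by positivity)
      _ = T ^ η := by
        rw [Real.mul_rpow (by linarith) (by linarith), ← Real.rpow_add (by linarith)]
        congr 1
        ring
      _ ≤ H := hH
  have h4 := (h1 t (hTa.trans htT) H h3 (hHT.trans htT)).1
  have h5 := hT2 T hTb
  have hL : 0 < Real.log T := Real.log_pos (by linarith)
  have hLt : Real.log T ≤ Real.log t := Real.log_le_log (by linarith) htT
  rw [N_eq]
  have h6 : 4 * Real.pi * K * Real.log T ≤ H * Real.log t := by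
    calc 4 * Real.pi * K * Real.log T ≤ H * Real.log T := mul_le_mul_of_nonneg_right (h5.trans hH) hL.le
      _ ≤ H * Real.log t := mul_le_mul_of_nonneg_left hLt (le_trans (by positivity) hH)
  have h7 : K * Real.log T * (4 * Real.pi) ≤ H * Real.log t := by linarith
  have h8 : K * Real.log T * (2 * Real.pi) ≤ H * Real.log t / 2 := by linarith
  rw [div_le_iff₀ (by positivity)] at h4
  have h9 : (K * Real.log T) * (4 * Real.pi) ≤ (H370.NN riemannZeta t (t + H) : ℝ) * (4 * Real.pi) := by linarith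
  exact le_of_mul_le_mul_right h9 (by positivity)

/-- an exceptional interval makes exceptional intervals of length `H - 2` -/
lemma robust {η c ε : ℝ} (hη : 0 < η) (hη1 : η < 1) (hε : 0 < ε) (cnt : ℝ → ℝ → ℝ → ℕ)
    (hmono : ∀ T a b a' b' : ℝ, a' ≤ a → b ≤ b' → cnt T a b ≤ cnt T a' b') : ∃ T₀ : ℝ, 10 ≤ T₀ ∧ ∀ T : ℝ, T₀ ≤ T →
      ∀ H n s t : ℝ, T ^ η + 2 ≤ H → H ≤ T / 8 → T ≤ n → n + 2 ≤ 2 * T → n ≤ t → t ≤ n + 1 → n + 1 < s → s < n + 2 →
      (c - ε / 2) * (N s (s + (H - 2)) : ℝ) ≤ cnt T s (s + (H - 2)) → (c - ε) * (N t (t + H) : ℝ) ≤ cnt T t (t + H) := by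
  obtain ⟨C, hC, hC2⟩ := N_two
  obtain ⟨T₀, hT₀, hlarge⟩ := N_large hη hη1 (|c - ε| * (4 * C) / (ε / 2))
  refine ⟨T₀, hT₀, fun T hT H n s t hH1 hH2 hn1 hn2 ht1 ht2 hs1 hs2 hQ => ?_⟩
  have hT10 : 10 ≤ T := hT₀.trans hT
  have hL : 0 < Real.log T := Real.log_pos (by linarith)
  have hlog2 : Real.log (3 * T) ≤ 2 * Real.log T := by
    have h1 : Real.log (3 * T) ≤ Real.log (T * T) := Real.log_le_log (by linarith) (by nlinarith)
    have h2 : Real.log (T * T) = Real.log T + Real.log T := Real.log_mul (by linarith) (by linarith)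
    linarith
  have hp : (0 : ℝ) ≤ T ^ η := Real.rpow_nonneg (by linarith) _
  have hadd : (N t (t + H) : ℝ) = N t s + N s (s + (H - 2)) + N (s + (H - 2)) (t + H) := by
    have h1 := N_add' (a := t) (b := s) (c := t + H) (by linarith) (by linarith) (by linarith)
    have h2 := N_add' (a := s) (b := s + (H - 2)) (c := t + H) (by linarith) (by linarith) (by linarith)
    rw [h1, h2]
    push_cast
    ring
  have hA : (N t s : ℝ) ≤ 2 * C * Real.log T := by
    have h1 := hC2 t s (by linarith) (by linarith)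
    have h2 : Real.log (t + 1) ≤ 2 * Real.log T := (Real.log_le_log (by linarith) (by linarith)).trans hlog2
    calc (N t s : ℝ) ≤ C * Real.log (t + 1) := h1
      _ ≤ C * (2 * Real.log T) := mul_le_mul_of_nonneg_left h2 hC.le
      _ = 2 * C * Real.log T := by ring
  have hB : (N (s + (H - 2)) (t + H) : ℝ) ≤ 2 * C * Real.log T := by
    have h1 := hC2 (s + (H - 2)) (t + H) (by linarith) (by linarith)
    have h2 : Real.log (s + (H - 2) + 1) ≤ 2 * Real.log T := (Real.log_le_log (by linarith) (by linarith)).trans hlog2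
    calc (N (s + (H - 2)) (t + H) : ℝ) ≤ C * Real.log (s + (H - 2) + 1) := h1
      _ ≤ C * (2 * Real.log T) := mul_le_mul_of_nonneg_left h2 hC.le
      _ = 2 * C * Real.log T := by ring
  have hM := hlarge T hT (H - 2) s (by linarith) (by linarith) (by linarith) (by linarith)
  have hM2 : |c - ε| * (4 * C * Real.log T) ≤ ε / 2 * (N s (s + (H - 2)) : ℝ) := by
    have h1 : |c - ε| * (4 * C) / (ε / 2) * Real.log T * (ε / 2) ≤ (N s (s + (H - 2)) : ℝ) * (ε / 2) :=
      mul_le_mul_of_nonneg_right hM (by positivity)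
    have h2 : |c - ε| * (4 * C) / (ε / 2) * Real.log T * (ε / 2) = |c - ε| * (4 * C * Real.log T) := by
      field_simp
    linarith
  have hends : (c - ε) * ((N t s : ℝ) + N (s + (H - 2)) (t + H)) ≤ |c - ε| * (4 * C * Real.log T) :=
    calc (c - ε) * ((N t s : ℝ) + N (s + (H - 2)) (t + H)) ≤ |c - ε| * ((N t s : ℝ) + N (s + (H - 2)) (t + H)) :=
          mul_le_mul_of_nonneg_right (le_abs_self _) (by positivity)
      _ ≤ |c - ε| * (4 * C * Real.log T) := mul_le_mul_of_nonneg_left (by linarith) (abs_nonneg _)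
  have hcnt : (cnt T s (s + (H - 2)) : ℝ) ≤ cnt T t (t + H) := by
    exact_mod_cast hmono T s (s + (H - 2)) t (t + H) (by linarith) (by linarith)
  rw [hadd]
  linarith

/-- from almost all intervals to all intervals near the multiples -/
theorem near_of_almost {η c ε : ℝ} (hη : 0 < η) (hη1 : η < 1) (hε : 0 < ε) (cnt : ℝ → ℝ → ℝ → ℕ)
    (hmono : ∀ T a b a' b' : ℝ, a' ≤ a → b ≤ b' → cnt T a b ≤ cnt T a' b')
    (hAA : AlmostAll η fun T H t => (c - ε / 2) * (N t (t + H) : ℝ) ≤ cnt T t (t + H)) :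
    ∃ κ D : ℝ, 0 < κ ∧ D < 1 ∧ NearMultiples η κ D fun T H t => (c - ε) * (N t (t + H) : ℝ) ≤ cnt T t (t + H) := by
  classical
  obtain ⟨δ₀, hδ₀, T₁, hvol⟩ := hAA
  obtain ⟨T₂, hT₂, hrob⟩ := robust hη hη1 hε cnt hmono (c := c)
  obtain ⟨δ, hδ, hδ1, hδδ⟩ : ∃ δ : ℝ, 0 < δ ∧ δ ≤ 1 ∧ δ ≤ δ₀ := ⟨min δ₀ 1, by positivity, min_le_right _ _, min_le_left _ _⟩
  refine ⟨δ / 2, (1 - 3 * δ / 4) / (1 - δ / 2), by positivity, ?_, fun w H hw hs hH => ?_⟩
  · rw [div_lt_one (by linarith)]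
    linarith
  have hwt : Tendsto w atTop atTop := by
    have h1 := (hs 1 one_pos).tendsto_atTop_zero
    have h2 : Tendsto (fun m => ((w m) ^ (-1 : ℝ))⁻¹) atTop atTop :=
      tendsto_inv_nhdsGT_zero.comp (tendsto_nhdsWithin_iff.2 ⟨h1, Eventually.of_forall fun m => by
        have := hw m
        show 0 < (w m) ^ (-1 : ℝ)
        positivity⟩)
    refine h2.congr fun m => ?_
    rw [Real.rpow_neg (by linarith [hw m]), Real.rpow_one, inv_inv]
  refine Pool.Agent.U265.ZG.metric hδ hδ1 w hw hs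
    (fun m t => (c - ε) * (N t (t + H m) : ℝ) ≤ cnt (w m) t (t + H m)) ?_
  filter_upwards [hH, hwt.eventually_ge_atTop (max T₁ T₂)] with m hm hwm
  obtain ⟨T, hT⟩ : ∃ T : ℝ, T = w m := ⟨_, rfl⟩
  obtain ⟨H', hH'⟩ : ∃ H' : ℝ, H' = H m := ⟨_, rfl⟩
  rw [← hT, ← hH'] at hm
  rw [← hT] at hwm
  rw [← hT, ← hH']
  obtain ⟨hm1, hm2⟩ := hm
  have hTa : T₁ ≤ T := (le_max_left _ _).trans hwm
  have hTb : T₂ ≤ T := (le_max_right _ _).trans hwm
  have hT10 : 10 ≤ T := hT₂.trans hTb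
  obtain ⟨B, hB⟩ : ∃ B : Set ℕ, B = {n : ℕ | T ≤ n ∧ (n : ℝ) + 2 ≤ 2 * T ∧ ∃ t : ℝ, n ≤ t ∧ t ≤ n + 1 ∧
    ¬ (c - ε) * (N t (t + H') : ℝ) ≤ cnt T t (t + H')} := ⟨_, rfl⟩
  rw [← hB]
  have hfin : B.Finite := by
    refine (Set.finite_Iic ⌈2 * T⌉₊).subset fun n hn => ?_
    rw [hB] at hn
    have h1 : (n : ℝ) ≤ (⌈2 * T⌉₊ : ℝ) := by linarith [hn.2.1, Nat.le_ceil (2 * T)]
    exact_mod_cast h1
  refine ⟨hfin, ?_⟩
  have hv := hvol T hTa (H' - 2) (by linarith) (by linarith)
  have hsub : (⋃ n ∈ hfin.toFinset, Set.Ioo ((n : ℝ) + 1) (n + 2)) ⊆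
      {t : ℝ | t ∈ Set.Icc T (2 * T) ∧ ¬ (c - ε / 2) * (N t (t + (H' - 2)) : ℝ) ≤ cnt T t (t + (H' - 2))} := by
    intro s hs
    simp only [Set.mem_iUnion] at hs
    obtain ⟨n, hn, hs1, hs2⟩ := hs
    rw [Set.Finite.mem_toFinset, hB] at hn
    obtain ⟨hn1, hn2, t, ht1, ht2, ht3⟩ := hn
    refine ⟨⟨by linarith, by linarith⟩, fun hQ => ht3 ?_⟩
    exact hrob T hTb H' n s t hm1 hm2 hn1 hn2 ht1 ht2 hs1 hs2 hQ
  have hmeas : volume (⋃ n ∈ hfin.toFinset, Set.Ioo ((n : ℝ) + 1) (n + 2)) = (hfin.toFinset.card : ENNReal) := by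
    rw [measure_biUnion_finset]
    · have h1 : ∀ n ∈ hfin.toFinset, volume (Set.Ioo ((n : ℝ) + 1) (n + 2)) = 1 := by
        intro n _
        rw [Real.volume_Ioo]
        have h2 : (n : ℝ) + 2 - (n + 1) = 1 := by ring
        rw [h2, ENNReal.ofReal_one]
      rw [Finset.sum_congr rfl h1, Finset.sum_const, nsmul_eq_mul, mul_one]
    · intro a _ b _ hab
      refine Set.disjoint_left.2 fun x hx hx' => hab ?_
      have h1 : (a : ℝ) < b + 1 := by linarith [hx.1, hx'.2]
      have h2 : (b : ℝ) < a + 1 := by linarith [hx'.1, hx.2]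
      have h3 : a < b + 1 := by exact_mod_cast h1
      have h4 : b < a + 1 := by exact_mod_cast h2
      omega
    · intro n _
      exact measurableSet_Ioo
  have hle : ENNReal.ofReal (hfin.toFinset.card : ℝ) ≤ ENNReal.ofReal (T ^ (1 - δ₀)) := by
    rw [ENNReal.ofReal_natCast, ← hmeas]
    exact (measure_mono hsub).trans hv
  have hp0 : (0 : ℝ) ≤ T ^ (1 - δ₀) := Real.rpow_nonneg (by linarith) _
  rw [ENNReal.ofReal_le_ofReal_iff hp0] at hle
  rw [Set.ncard_eq_toFinset_card _ hfin]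
  exact hle.trans (Real.rpow_le_rpow_of_exponent_le (by linarith) (by linarith))

/-- **Normal gaps between the zeta zeros in all short intervals near the multiples of a real number.** -/
theorem result :
    -- 1: large gaps
    (∀ (η h r ε : ℝ) (k : ℕ), 1 ≤ k → 0 < η → η < 1 → 0 < h → 2 * h ≤ 1 + η → 0 ≤ r → h * (k * r) ≤ 1 / 2 → 0 < ε →
      ∃ κ D : ℝ, 0 < κ ∧ D < 1 ∧ NearMultiples η κ D fun T H t =>
        (P h r k - ε) * (N t (t + H) : ℝ) ≤ ((wide t (t + H) (2 * Real.pi * r / Real.log T)).ncard : ℝ)) ∧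
    -- 2: gaps of the size of the mean gap
    ∀ (η h r R ε : ℝ) (k : ℕ), 1 ≤ k → 0 < η → η < 1 → 0 < h → 2 * h ≤ 1 + η → 0 ≤ r → r < R → h * (k * r) ≤ 1 / 2 →
      0 < ε → ∃ κ D : ℝ, 0 < κ ∧ D < 1 ∧ NearMultiples η κ D fun T H t =>
        ((R * P h r k - 1) / (R - r) - ε) * (N t (t + H) : ℝ) ≤
          ((normal t (t + H) (2 * Real.pi * r / Real.log T) (2 * Real.pi * R / Real.log T)).ncard : ℝ) := by
  refine ⟨fun η h r ε k hk hη0 hη1 hh hh1 hr0 hr hε => ?_, fun η h r R ε k hk hη0 hη1 hh hh1 hr0 hrR hr hε => ?_⟩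
  · exact near_of_almost hη0 hη1 hε (fun T a b => (wide a b (2 * Real.pi * r / Real.log T)).ncard)
      (fun T a b a' b' h1 h2 => Set.ncard_le_ncard
        (fun n hn => ⟨hn.1, by linarith [hn.2.1], by linarith [hn.2.2.1], hn.2.2.2⟩) (wide_finite _ _ _))
      (HalfOfTheMeanGap.part2 η h r (ε / 2) k hk hη0 hη1 hh hh1 hr0 hr (by positivity))
  · exact near_of_almost hη0 hη1 hε
      (fun T a b => (normal a b (2 * Real.pi * r / Real.log T) (2 * Real.pi * R / Real.log T)).ncard)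
      (fun T a b a' b' h1 h2 => Set.ncard_le_ncard
        (fun n hn => ⟨hn.1, by linarith [hn.2.1], by linarith [hn.2.2.1], hn.2.2.2⟩) (normal_finite _ _ _ _))
      (HalfOfTheMeanGap.part4 η h r R (ε / 2) k hk hη0 hη1 hh hh1 hr0 hrR hr (by positivity))

end Pool.Agent.Results.MP_af3d17_nt.MetricNormalGaps
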