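import Pool.Agent.U73.NG.Zeta
import Pool.Agent.TH803.CL.NearS
import Pool.Agent.W354.ZP.Num
import Pool.Agent.U73.RN.Fin
import Pool.Agent.H370R2.DirGood
set_option autoImplicit false

/-!
# Runs of up to five consecutive gaps of the size of the mean gap

Let `0 < γ_1 ≤ γ_2 ≤ …` be the ordinates of the nontrivial zeros of zeta in the upper half plane,
repeated according to multiplicity, and `c` the constant of Montgomery and Taylor,
`c(1) = 1.3274…`.  No hypothesis is assumed.  For every `m ≥ 1`, at least the proportion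
`2 - c - (m - 1) (c - 1) / 2 - ε` of the `n` start `m` consecutive gaps
`γ_{n+1} - γ_n, …, γ_{n+m} - γ_{n+m-1}` all of which are between `η / log n` and `K / log n`, with
constants `η, K > 0` which depend only on `m` and `ε`.  For `m = 5` this is more than `1.75` per cent of
all `n`; for `m = 1` it is the proportion `67.25` per cent of the starting result `OrdinateGaps`.
This is true

1. in every interval `(T, T + H]`, `T ^ h ≤ H ≤ T`, with `c(h)` for `c`;
2. with a gain `κ > 0` in every interval `(T, T + H]`, `T ^ h₀ ≤ H ≤ T`;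
3. in almost all very short intervals `(t, t + H]`, `T ^ η ≤ H ≤ T / 8`, `t ∈ [T, 2T]`, with
   `c₀((1 + η) / 2)` for `c`.

Proof.  A cluster is a maximal set of consecutive ordinates with steps less than `η / log T`.  Each
cluster with at least two zeros contains at least two zeros which are not isolated (simple, on the
critical line, without another zero at distance `D ≫ η / log T`): an isolated zero in such a cluster
has only zeros off the line near its ordinate, and these come in pairs.  So the small gaps, although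
they may be as many as the zeros which are not isolated, form at most half as many blocks, and a
block of small gaps destroys at most `m - 1` of the runs.
-/

open Filter Topology Complex MeasureTheory

namespace Pool.Agent.Results.MP_af3d17_nt.RunsOfNormalGaps

/-- the nontrivial zeros of zeta -/
def zeros : Set ℂ := {s : ℂ | riemannZeta s = 0 ∧ 0 < s.re ∧ s.re < 1}

/-- the number of nontrivial zeros with ordinate in `(T₁, T₂]`, counted with multiplicity -/
noncomputable def N (T₁ T₂ : ℝ) : ℕ :=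
  ∑ᶠ s ∈ {s ∈ zeros | T₁ < s.im ∧ s.im ≤ T₂}, analyticOrderNatAt riemannZeta s

/-- the `n`-th positive ordinate `γ_n` (`n ≥ 1`), in nondecreasing order and repeated according to
multiplicity: the least `t` with at least `n` zeros in `(0, t]` -/
noncomputable def gam (n : ℕ) : ℝ := sInf {t : ℝ | n ≤ N 0 t}

/-- the `n ≥ 1` with `T₁ < γ_n`, `γ_{n+m} ≤ T₂` for which the `m` gaps `γ_{n+j+1} - γ_{n+j}`, `0 ≤ j < m`,
are all at least `d`, and together at most `D` -/
def runs (m : ℕ) (T₁ T₂ d D : ℝ) : Set ℕ :=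
  {n : ℕ | 1 ≤ n ∧ T₁ < gam n ∧ gam (n + m) ≤ T₂ ∧
    (∀ j, j < m → d ≤ gam (n + j + 1) - gam (n + j)) ∧ gam (n + m) - gam n ≤ D}

/-- the constant `c(h) = h/2 + cot(h/√2)/√2`; `c(1) = 1.3274…` -/
noncomputable def c (h : ℝ) : ℝ := h / 2 + Real.cot (h / Real.sqrt 2) / Real.sqrt 2

/-- the mean square of the Montgomery-Taylor window, `1.0061...` -/
noncomputable def R0 : ℝ :=
  (1 + Real.sin (Real.sqrt 2) / Real.sqrt 2) / (4 * Real.sin (1 / Real.sqrt 2) ^ 2)

/-- the constant of the window of Montgomery and Taylor (optimal for `h = 1`) at the bandwidth `h`;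
`c₀(1) = c(1)` -/
noncomputable def c₀ (h : ℝ) : ℝ := R0 / h + h * (c 1 - R0)

/-- `Q T H t` holds in almost all short intervals: for all large `T`, all `T ^ η ≤ H ≤ T / 8` and
all `t ∈ [T, 2T]` outside a set of measure at most `T ^ (1 - δ)`, for some `δ > 0` -/
def AlmostAll (η : ℝ) (Q : ℝ → ℝ → ℝ → Prop) : Prop :=
  ∃ δ : ℝ, 0 < δ ∧ ∃ T₀ : ℝ, ∀ T : ℝ, T₀ ≤ T → ∀ H : ℝ, T ^ η ≤ H → H ≤ T / 8 →
    volume {t : ℝ | t ∈ Set.Icc T (2 * T) ∧ ¬ Q T H t} ≤ ENNReal.ofReal (T ^ (1 - δ))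

lemma N_eq : N = Pool.Agent.U73.NG.N := rfl

lemma runs_eq : runs = Pool.Agent.U73.NG.runsN := rfl

/-- the sets of indices that are counted are finite -/
theorem runs_finite (m : ℕ) (T₁ T₂ d D : ℝ) : (runs m T₁ T₂ d D).Finite :=
  Pool.Agent.U73.NG.runsN_finite m T₁ T₂ d D

lemma half_re (x : ℝ) : (1 / 2 + I * (x : ℂ)).re = 1 / 2 := by simp

lemma half_im (x : ℝ) : (1 / 2 + I * (x : ℂ)).im = x := by simp

lemma eq_half {s : ℂ} (h : s.re = 1 / 2) : s = 1 / 2 + I * (s.im : ℂ) := by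
  apply Complex.ext
  · rw [half_re, h]
  · rw [half_im]

/-- the common final step -/
lemma step {T H δ e P : ℝ} (hT : 10 ≤ T) (hH : 0 < H) (hδ : 0 < δ) (he : 0 < e) (he1 : e ≤ 1)
    (G : Finset ℝ)
    (hG : ∀ x ∈ G, T < x ∧ x ≤ T + H ∧ riemannZeta (1 / 2 + I * x) = 0 ∧
      H370.mult riemannZeta (1 / 2 + I * x) = 1) {L0 : ℝ} (hL0 : 0 < L0)
    (hsep : ∀ x ∈ G, ∀ y : ℝ, riemannZeta (1 / 2 + I * y) = 0 → y ≠ x → δ / L0 ≤ |x - y|)
    (m : ℕ) (hm : 1 ≤ m) (hP : P * (N T (T + H) : ℝ) ≤ G.card)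
    (hN1 : 8 * (m + 1) / e ≤ (N T (T + H) : ℝ))
    (hN2 : H * L0 ≤ 8 * Real.pi * (N T (T + H) : ℝ)) :
    (P - (m - 1) * ((1 - P) / 2) - e / 2) * (N T (T + H) : ℝ) ≤
      ((runs m T (T + H) (δ * e / 8 / L0) (64 * Real.pi * m / e / L0)).ncard : ℝ) := by
  have hpi := Real.pi_pos
  have hm1 : (1 : ℝ) ≤ m := by exact_mod_cast hm
  have hm0 : (0 : ℝ) < m := by linarith
  have hd : 0 < δ * e / 8 / L0 := by positivity
  have hdD : δ * e / 8 / L0 ≤ δ / L0 := by
    apply div_le_div_of_nonneg_right _ hL0.le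
    nlinarith
  have hL : 0 < 64 * Real.pi * m / e / L0 := by positivity
  have h1 := Pool.Agent.U73.NG.det hT hH hd hdD G hG hsep m hm hL
  rw [← N_eq, ← runs_eq] at h1
  refine le_trans ?_ h1
  set n : ℝ := (N T (T + H) : ℝ) with hn
  have hn0 : 0 ≤ n := Nat.cast_nonneg _
  have e1 : δ * e / 8 / L0 / (δ / L0) = e / 8 := by field_simp
  have e2 : (m : ℝ) * H / (64 * Real.pi * m / e / L0) ≤ e / 8 * n := by
    rw [div_le_iff₀ hL]
    have e3 : e / 8 * n * (64 * Real.pi * m / e / L0) = 8 * Real.pi * n * m / L0 := by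
      field_simp
      ring
    rw [e3, le_div_iff₀ hL0]
    nlinarith
  rw [e1]
  have h3 : (m : ℝ) + 1 ≤ e / 8 * n := by
    rw [div_le_iff₀ he] at hN1
    linarith
  have h4 : (1 + ((m : ℝ) - 1) / 2) * (P * n) ≤ (1 + (m - 1) / 2) * (G.card : ℝ) :=
    mul_le_mul_of_nonneg_left hP (by linarith)
  have e4 : (P - (m - 1) * ((1 - P) / 2) - e / 2) * n =
      (1 + ((m : ℝ) - 1) / 2) * (P * n) - (m - 1) / 2 * n - e / 2 * n := by ring
  have e5 : (G.card : ℝ) - 1 - e / 8 * n - m - (m - 1) * ((n - G.card) / 2) -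
      m * H / (64 * Real.pi * m / e / L0) =
      (1 + (m - 1) / 2) * (G.card : ℝ) - (m - 1) / 2 * n - (m + 1) - e / 8 * n -
        m * H / (64 * Real.pi * m / e / L0) := by ring
  rw [e4, e5]
  have he8 : 0 ≤ e / 8 * n := by positivity
  linarith

/-- the ordinates of the isolated zeros, from the zeros isolated in the plane -/
lemma isoG {T H d : ℝ} (hT : 1 ≤ T) :
    ∃ G : Finset ℝ, G.card = (TH803CL.isoA riemannZeta T (T + H) d).card ∧
      (∀ x ∈ G, T < x ∧ x ≤ T + H ∧ riemannZeta (1 / 2 + I * x) = 0 ∧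
        H370.mult riemannZeta (1 / 2 + I * x) = 1) ∧
      (∀ x ∈ G, ∀ y : ℝ, riemannZeta (1 / 2 + I * y) = 0 → y ≠ x → d ≤ |x - y|) := by
  classical
  set A := TH803CL.isoA riemannZeta T (T + H) d with hA
  have hmem : ∀ s ∈ A, s ∈ H370.zset riemannZeta T (T + H) ∧ s.re = 1 / 2 ∧
      H370.mult riemannZeta s = 1 ∧ ∀ s' : ℂ, riemannZeta s' = 0 → 0 < s'.re → s'.re < 1 →
        s' ≠ s → d ≤ ‖s - s'‖ := by
    intro s hs
    rw [hA] at hs
    unfold TH803CL.isoA at hs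
    rw [Finset.mem_filter] at hs
    exact ⟨(H370.mem_Zf H370.good_zeta hT).mp hs.1, hs.2⟩
  refine ⟨A.image Complex.im, ?_, ?_, ?_⟩
  · apply Finset.card_image_of_injOn
    intro s hs s' hs' h
    have h1 := eq_half (hmem s hs).2.1
    have h2 := eq_half (hmem s' hs').2.1
    have h3 : s.im = s'.im := h
    rw [h1, h2, h3]
  · intro x hx
    rw [Finset.mem_image] at hx
    obtain ⟨s, hs, rfl⟩ := hx
    obtain ⟨h1, h2, h3, -⟩ := hmem s hs
    rw [← eq_half h2]
    exact ⟨h1.2.2.1, h1.2.2.2.1, h1.2.2.2.2, h3⟩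
  · intro x hx y hy hne
    rw [Finset.mem_image] at hx
    obtain ⟨s, hs, rfl⟩ := hx
    obtain ⟨h1, h2, h3, h4⟩ := hmem s hs
    have h5 := h4 (1 / 2 + I * y) hy (by rw [half_re]; norm_num) (by rw [half_re]; norm_num)
      (fun h => hne (by
        have := congrArg Complex.im h
        rwa [half_im] at this))
    have h6 : s - (1 / 2 + I * (y : ℂ)) = I * ((s.im - y : ℝ) : ℂ) := by
      apply Complex.ext
      · simp [h2]
      · simp
    rwa [h6, norm_mul, Complex.norm_I, one_mul, Complex.norm_real, Real.norm_eq_abs] at h5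

/-- the ordinates of the isolated zeros, from the zeros isolated in a box -/
lemma isoG' {t H ρ w : ℝ} (ht : 1 ≤ t) (hw : 0 ≤ w) :
    ∃ G : Finset ℝ, G.card = H295Iso.isoN riemannZeta t H ρ w ∧
      (∀ x ∈ G, t < x ∧ x ≤ t + H ∧ riemannZeta (1 / 2 + I * x) = 0 ∧
        H370.mult riemannZeta (1 / 2 + I * x) = 1) ∧
      (∀ x ∈ G, ∀ y : ℝ, riemannZeta (1 / 2 + I * y) = 0 → y ≠ x → ρ ≤ |x - y|) := by
  classical
  have hfin : (H295Iso.isoSet riemannZeta t H ρ w).Finite :=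
    (H370.zset_finite H370.good_zeta t (t + H) ht).subset fun s hs => hs.1
  set A := hfin.toFinset with hA
  have hmem : ∀ s, s ∈ A ↔ s ∈ H295Iso.isoSet riemannZeta t H ρ w := fun s => by
    rw [hA, Set.Finite.mem_toFinset]
  refine ⟨A.image Complex.im, ?_, ?_, ?_⟩
  · unfold H295Iso.isoN
    rw [Set.ncard_eq_toFinset_card _ hfin]
    apply Finset.card_image_of_injOn
    intro s hs s' hs' h
    have h1 := eq_half ((hmem s).mp hs).2.1
    have h2 := eq_half ((hmem s').mp hs').2.1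
    have h3 : s.im = s'.im := h
    rw [h1, h2, h3]
  · intro x hx
    rw [Finset.mem_image] at hx
    obtain ⟨s, hs, rfl⟩ := hx
    obtain ⟨h1, h2, h3, -⟩ := (hmem s).mp hs
    rw [← eq_half h2]
    exact ⟨h1.2.2.1, h1.2.2.2.1, h1.2.2.2.2, h3⟩
  · intro x hx y hy hne
    rw [Finset.mem_image] at hx
    obtain ⟨s, hs, rfl⟩ := hx
    obtain ⟨h1, h2, h3, h4⟩ := (hmem s).mp hs
    by_contra hcon
    push Not at hcon
    have h5 := h4 (1 / 2 + I * y) hy (by rw [half_re]; norm_num) (by rw [half_re]; norm_num)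
      (fun h => hne (by
        have := congrArg Complex.im h
        rwa [half_im] at this)) (by rw [half_im, abs_sub_comm]; exact hcon.le)
    rw [half_re, sub_self, abs_zero] at h5
    linarith

lemma c_eq (h : ℝ) : c h = H295SI.cc h := rfl

lemma c_one : c 1 = H370.cMTinv := by
  unfold c H370.cMTinv
  rfl

lemma c₀_eq {h : ℝ} (hh : 0 < h) : c₀ h = H295Iso.c0 h := by
  have h2 := H228SI.constS 1 one_pos le_rfl
  have h4 : Real.sqrt 2 / 2 = 1 / Real.sqrt 2 := by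
    rw [div_eq_div_iff (by norm_num) (by positivity), Real.mul_self_sqrt (by norm_num), one_mul]
  have h3 : H295SI.RS (Real.sqrt 2) 0 = R0 := by
    unfold H295SI.RS R0
    have hs : Real.sqrt 2 ^ 2 = 2 := Real.sq_sqrt (by norm_num)
    rw [if_pos (by norm_num), hs, h4]
    simp only [abs_zero, sub_zero, mul_zero, Real.cos_zero, mul_one]
    ring
  rw [mul_one, ← c_eq] at h2
  unfold c₀ H295Iso.c0 H295SI.cR
  unfold H295SI.cR at h2
  rw [h3] at h2 ⊢
  rw [← h2]
  ring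

/-- the number of the zeros in short intervals -/
lemma N_large {h : ℝ} (h0 : 0 < h) (K : ℝ) : ∃ T0 : ℝ, 10 ≤ T0 ∧ ∀ T : ℝ, T0 ≤ T → ∀ H : ℝ,
    T ^ h ≤ H → H ≤ T → K ≤ (N T (T + H) : ℝ) ∧
      H * Real.log T ≤ 4 * Real.pi * (N T (T + H) : ℝ) := by
  obtain ⟨C, hC, hc⟩ := H965SI.countShort riemannZeta H370.good_zeta
  have ev1 : ∀ᶠ T : ℝ in atTop, 8 * Real.pi * (C + 1) ≤ Real.log T :=
    Real.tendsto_log_atTop.eventually_ge_atTop _
  have ev2 := (isLittleO_log_rpow_rpow_atTop (2 : ℝ) h0).bound (c := 1 / (2 * C)) (by positivity)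
  have ev3 := (tendsto_rpow_atTop h0).eventually_ge_atTop (max 3 (2 * K))
  obtain ⟨T0, hT0⟩ := eventually_atTop.mp (ev1.and (ev2.and (ev3.and (eventually_ge_atTop 10))))
  refine ⟨max T0 10, le_max_right _ _, fun T hT H hH1 hH2 => ?_⟩
  obtain ⟨h1, h2, h3, h4⟩ := hT0 T ((le_max_left _ _).trans hT)
  have hL : 0 < Real.log T := Real.log_pos (by linarith)
  rw [Real.rpow_two, Real.norm_of_nonneg (by positivity),
    Real.norm_of_nonneg (Real.rpow_nonneg (by linarith) _)] at h2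
  have h5 := (hc T h4 H ((le_max_left _ _).trans h3 |>.trans hH1) hH2 T (T + H) le_rfl
    (by linarith) (by linarith) le_rfl).1
  rw [abs_le] at h5
  rw [N_eq, Pool.Agent.U73.NG.N_eq]
  have h6 : 2 * K ≤ T ^ h := (le_max_right _ _).trans h3
  have hH0 : 0 < H := lt_of_lt_of_le (by positivity) hH1
  have hpi := Real.pi_pos
  have h7 : 4 * ((C + 1) * H) ≤ H * Real.log T / (2 * Real.pi) := by
    rw [le_div_iff₀ (by positivity)]
    nlinarith
  have h8 : C * Real.log T ^ 2 ≤ T ^ h / 2 := by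
    have := mul_le_mul_of_nonneg_left h2 hC.le
    calc C * Real.log T ^ 2 ≤ C * (1 / (2 * C) * T ^ h) := this
      _ = T ^ h / 2 := by field_simp
  have hCH : 0 ≤ C * H := by positivity
  refine ⟨by linarith [h5.1], ?_⟩
  have h9 : H * Real.log T / (2 * Real.pi) ≤ 2 * (H370.NN riemannZeta T (T + H) : ℝ) := by
    linarith [h5.1]
  rw [div_le_iff₀ (by positivity)] at h9
  linarith

/-- the arithmetic of the parameters -/
lemma arith {m : ℕ} (hm : 1 ≤ m) {ε e s C : ℝ} (he0 : 0 < e) (hem : e * m ≤ ε) (hs : s ≤ e / 2) :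
    2 - C - (m - 1) * ((C - 1) / 2) - ε ≤
      (2 - C - s) - (m - 1) * ((1 - (2 - C - s)) / 2) - e / 2 := by
  have hm1 : (1 : ℝ) ≤ m := by exact_mod_cast hm
  have h1 : s * (1 + ((m : ℝ) - 1) / 2) ≤ e / 2 * m := by
    calc s * (1 + ((m : ℝ) - 1) / 2) ≤ e / 2 * (1 + ((m : ℝ) - 1) / 2) :=
          mul_le_mul_of_nonneg_right hs (by linarith)
      _ ≤ e / 2 * m := mul_le_mul_of_nonneg_left (by linarith) (by positivity)
  have h2 : e / 2 ≤ e / 2 * m := by
    have : e / 2 * 1 ≤ e / 2 * m := mul_le_mul_of_nonneg_left hm1 (by positivity)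
    linarith
  have h3 : (2 - C - s) - ((m : ℝ) - 1) * ((1 - (2 - C - s)) / 2) - e / 2 =
      2 - C - (m - 1) * ((C - 1) / 2) - s * (1 + ((m : ℝ) - 1) / 2) - e / 2 := by ring
  rw [h3]
  linarith

/-- 1: all short intervals -/
theorem part1 (m : ℕ) (ε : ℝ) (hm : 1 ≤ m) (hε : 0 < ε) : ∃ η K : ℝ, 0 < η ∧ 0 < K ∧
    ∀ h : ℝ, 0 < h → h ≤ 1 → ∃ T₀ : ℝ, ∀ T : ℝ, T₀ ≤ T → ∀ H : ℝ, T ^ h ≤ H → H ≤ T →
      (2 - c h - (m - 1) * ((c h - 1) / 2) - ε) * (N T (T + H) : ℝ) ≤
        ((runs m T (T + H) (η / Real.log T) (K / Real.log T)).ncard : ℝ) := by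
  have hpi := Real.pi_pos
  have hm1 : (1 : ℝ) ≤ m := by exact_mod_cast hm
  have hm0 : (0 : ℝ) < m := by linarith
  set e : ℝ := min ε 1 / m with he
  have he0 : 0 < e := by positivity
  have hem : e * m ≤ ε := by
    rw [he, div_mul_cancel₀ _ hm0.ne']
    exact min_le_left _ _
  have he1 : e ≤ 1 := by
    rw [he, div_le_one hm0]
    exact (min_le_right _ _).trans hm1
  refine ⟨e / 300 * e / 8, 64 * Real.pi * m / e, by positivity, by positivity,
    fun h h0 h1 => ?_⟩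
  obtain ⟨T1, -, a1⟩ := TH803CL.iso_main H370.good_zeta h (e / 4) (e / 300) h0 h1 (by positivity)
    (by positivity) (by linarith)
  obtain ⟨T2, hT2, a2⟩ := N_large h0 (8 * (m + 1) / e)
  refine ⟨max T1 T2, fun T hT H hH1 hH2 => ?_⟩
  have hT10 : 10 ≤ T := hT2.trans ((le_max_right _ _).trans hT)
  have hH0 : 0 < H := lt_of_lt_of_le (Real.rpow_pos_of_pos (by linarith) _) hH1
  have hL : 0 < Real.log T := Real.log_pos (by linarith)
  have b1 := a1 T ((le_max_left _ _).trans hT) H hH1 hH2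
  obtain ⟨b2, b3⟩ := a2 T ((le_max_right _ _).trans hT) H hH1 hH2
  obtain ⟨G, g1, g2, g3⟩ := isoG (T := T) (H := H) (d := e / 300 / Real.log T) (by linarith)
  have hn0 : (0 : ℝ) ≤ (N T (T + H) : ℝ) := Nat.cast_nonneg _
  have key := step (P := 2 - c h - (74 * (e / 300) ^ 2 + e / 4)) hT10 hH0
    (show 0 < e / 300 by positivity) he0 he1 G g2 hL g3 m hm (by
      rw [g1, N_eq, Pool.Agent.U73.NG.N_eq, c_eq]
      refine le_trans (le_of_eq ?_) b1
      ring) b2 (by nlinarith)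
  refine le_trans ?_ key
  exact mul_le_mul_of_nonneg_right (arith hm he0 hem (by nlinarith)) hn0

/-- 2: with a gain -/
theorem part2 : ∃ κ h₀ : ℝ, 0 < κ ∧ 0 < h₀ ∧ h₀ < 1 ∧ ∀ m : ℕ, 1 ≤ m → ∃ η K : ℝ, 0 < η ∧ 0 < K ∧
    ∃ T₀ : ℝ, ∀ T : ℝ, T₀ ≤ T → ∀ H : ℝ, T ^ h₀ ≤ H → H ≤ T →
      (0.6725 - (m - 1) * 0.16375 + κ) * (N T (T + H) : ℝ) ≤
        ((runs m T (T + H) (η / Real.log T) (K / Real.log T)).ncard : ℝ) := by
  have hpi := Real.pi_pos
  obtain ⟨κ, h0, hκ, hh0, hh1, hw⟩ := TH803CL.isoS_main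
  refine ⟨κ / 4, h0, by positivity, hh0, hh1, fun m hm => ?_⟩
  have hm1 : (1 : ℝ) ≤ m := by exact_mod_cast hm
  have hm0 : (0 : ℝ) < m := by linarith
  set e : ℝ := min (κ / 2) 1 with he
  have he0 : 0 < e := by positivity
  have heκ : e ≤ κ / 2 := min_le_left _ _
  have he1 : e ≤ 1 := min_le_right _ _
  obtain ⟨T1, -, a1⟩ := hw riemannZeta H370.good_zeta (e / 300) (by positivity) (by linarith)
  obtain ⟨T2, hT2, a2⟩ := N_large hh0 (8 * (m + 1) / e)
  refine ⟨e / 300 * e / 8, 64 * Real.pi * m / e, by positivity, by positivity, max T1 T2,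
    fun T hT H hH1 hH2 => ?_⟩
  have hT10 : 10 ≤ T := hT2.trans ((le_max_right _ _).trans hT)
  have hH0 : 0 < H := lt_of_lt_of_le (Real.rpow_pos_of_pos (by linarith) _) hH1
  have hL : 0 < Real.log T := Real.log_pos (by linarith)
  have b1 := a1 T ((le_max_left _ _).trans hT) H hH1 hH2
  obtain ⟨b2, b3⟩ := a2 T ((le_max_right _ _).trans hT) H hH1 hH2
  obtain ⟨G, g1, g2, g3⟩ := isoG (T := T) (H := H) (d := e / 300 / Real.log T) (by linarith)
  have hn0 : (0 : ℝ) ≤ (N T (T + H) : ℝ) := Nat.cast_nonneg _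
  have hcc : H295SI.cc 1 ≤ 1.3275 := Pool.Agent.W354.ZP.cMTinv_sharp
  have h74 : 74 * (e / 300) ^ 2 ≤ κ / 2 := by nlinarith
  have key := step (P := 0.6725 + κ / 2) hT10 hH0
    (show 0 < e / 300 by positivity) he0 he1 G g2 hL g3 m hm (by
      rw [g1]
      rw [N_eq, Pool.Agent.U73.NG.N_eq]
      refine le_trans ?_ b1
      apply mul_le_mul_of_nonneg_right _ (Nat.cast_nonneg _)
      norm_num at hcc ⊢
      linarith) b2 (by nlinarith)
  refine le_trans ?_ key
  apply mul_le_mul_of_nonneg_right _ hn0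
  have h5 : 0 ≤ ((m : ℝ) - 1) * κ := mul_nonneg (by linarith) hκ.le
  norm_num
  nlinarith

/-- the number of the zeros in almost all short intervals -/
lemma N_aa {η : ℝ} (hη0 : 0 < η) (hη1 : η < 1) (K : ℝ) :
    AlmostAll η fun T H t => K ≤ (N t (t + H) : ℝ) ∧
      H * Real.log T ≤ 4 * Real.pi * (N t (t + H) : ℝ) := by
  have hpi := Real.pi_pos
  have h2 := Pool.Agent.U73.RN.count_aa H370.good_zeta Pool.Agent.TH822.AA.bz_z hη0 hη1
  obtain ⟨T2, hT2⟩ := ((tendsto_rpow_atTop hη0).eventually_ge_atTop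
    (4 * Real.pi * K)).exists_forall_of_atTop
  refine Pool.Agent.Y796.PA.aa_mono (T1 := max 10 T2) h2 ?_
  intro T hT t ht H hH hP
  have hT10 : 10 ≤ T := (le_max_left _ _).trans hT
  have hTT2 := hT2 T ((le_max_right _ _).trans hT)
  have hH0 : 0 < H := lt_of_lt_of_le (Real.rpow_pos_of_pos (by linarith) _) hH
  have hlog1 : 1 ≤ Real.log T := by
    rw [Real.le_log_iff_exp_le (by linarith)]
    have := Real.exp_one_lt_d9
    linarith
  rw [N_eq, Pool.Agent.U73.NG.N_eq]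
  rw [show 1 / 2 * (H * Real.log T / (2 * Real.pi)) = H * Real.log T / (4 * Real.pi) by
      field_simp; ring, div_le_iff₀ (by positivity)] at hP
  have h4 : H * 1 ≤ H * Real.log T := mul_le_mul_of_nonneg_left hlog1 hH0.le
  constructor
  · nlinarith
  · linarith

/-- 3: almost all very short intervals -/
theorem part3 (m : ℕ) (η ε : ℝ) (hm : 1 ≤ m) (hη0 : 0 < η) (hη1 : η < 1) (hε : 0 < ε) :
    ∃ d K : ℝ, 0 < d ∧ 0 < K ∧ AlmostAll η fun T H t =>
      (2 - c₀ ((1 + η) / 2) - (m - 1) * ((c₀ ((1 + η) / 2) - 1) / 2) - ε) *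
          (N t (t + H) : ℝ) ≤
        ((runs m t (t + H) (d / Real.log T) (K / Real.log T)).ncard : ℝ) := by
  have hpi := Real.pi_pos
  have hm1 : (1 : ℝ) ≤ m := by exact_mod_cast hm
  have hm0 : (0 : ℝ) < m := by linarith
  set h : ℝ := (1 + η) / 2 with hh
  have hh0 : 0 < h := by positivity
  set e : ℝ := min ε 1 / m with he
  have he0 : 0 < e := by positivity
  have hem : e * m ≤ ε := by
    rw [he, div_mul_cancel₀ _ hm0.ne']
    exact min_le_left _ _
  have he1 : e ≤ 1 := by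
    rw [he, div_le_one hm0]
    exact (min_le_right _ _).trans hm1
  obtain ⟨r, hr0, hr1, hr2⟩ := Pool.Agent.H24R3.PairsShort.pd_near_zero (h := h) (δ := e / 4) hh0
    (by positivity)
  have a1 := Pool.Agent.Y796.PA.iso_aa2 H370.good_zeta Pool.Agent.TH822.AA.bz_z hη0 hη1 hh0
    (show 2 * h ≤ 1 + η by rw [hh]; linarith) hr0.le hr1 (ε := e / 4) (by positivity)
  have a2 := N_aa hη0 hη1 (8 * (m + 1) / e)
  refine ⟨2 * Real.pi * r * e / 8, 64 * Real.pi * m / e, by positivity, by positivity, ?_⟩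
  refine Pool.Agent.Y796.PA.aa_mono (T1 := 10) (Pool.Agent.Y796.PA.aa_and a1 a2) ?_
  rintro T hT10 t ht H hH ⟨b1, b2, b3⟩
  have hH0 : 0 < H := lt_of_lt_of_le (Real.rpow_pos_of_pos (by linarith) _) hH
  have hL : 0 < Real.log T := Real.log_pos (by linarith)
  obtain ⟨G, g1, g2, g3⟩ := isoG' (t := t) (H := H) (ρ := 2 * Real.pi * r / Real.log T)
    (w := 4 * Real.pi / 5 / (h * Real.log T)) (by linarith) (by positivity)
  have hn0 : (0 : ℝ) ≤ (N t (t + H) : ℝ) := Nat.cast_nonneg _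
  have key := step (P := 2 - c₀ h - (e / 4 + e / 4)) (show (10 : ℝ) ≤ t by linarith) hH0
    (show 0 < 2 * Real.pi * r by positivity) he0 he1 G g2 hL g3 m hm (by
      rw [g1]
      rw [N_eq, Pool.Agent.U73.NG.N_eq, c₀_eq hh0]
      refine le_trans ?_ b1
      apply mul_le_mul_of_nonneg_right _ (Nat.cast_nonneg _)
      linarith) b2 (by nlinarith)
  refine le_trans ?_ key
  exact mul_le_mul_of_nonneg_right (arith hm he0 hem (by linarith)) hn0

/-- **runs of consecutive normal gaps** -/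
theorem result :
    -- 1: all short intervals
    (∀ (m : ℕ) (ε : ℝ), 1 ≤ m → 0 < ε → ∃ η K : ℝ, 0 < η ∧ 0 < K ∧
      ∀ h : ℝ, 0 < h → h ≤ 1 → ∃ T₀ : ℝ, ∀ T : ℝ, T₀ ≤ T → ∀ H : ℝ, T ^ h ≤ H → H ≤ T →
        (2 - c h - (m - 1) * ((c h - 1) / 2) - ε) * (N T (T + H) : ℝ) ≤
          ((runs m T (T + H) (η / Real.log T) (K / Real.log T)).ncard : ℝ)) ∧
    -- 2: with a gain; for `m = 5` the constant is `0.0175 + κ`
    (∃ κ h₀ : ℝ, 0 < κ ∧ 0 < h₀ ∧ h₀ < 1 ∧ ∀ m : ℕ, 1 ≤ m → ∃ η K : ℝ, 0 < η ∧ 0 < K ∧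
      ∃ T₀ : ℝ, ∀ T : ℝ, T₀ ≤ T → ∀ H : ℝ, T ^ h₀ ≤ H → H ≤ T →
        (0.6725 - (m - 1) * 0.16375 + κ) * (N T (T + H) : ℝ) ≤
          ((runs m T (T + H) (η / Real.log T) (K / Real.log T)).ncard : ℝ)) ∧
    -- 3: almost all very short intervals
    (∀ (m : ℕ) (η ε : ℝ), 1 ≤ m → 0 < η → η < 1 → 0 < ε → ∃ d K : ℝ, 0 < d ∧ 0 < K ∧
      AlmostAll η fun T H t =>
        (2 - c₀ ((1 + η) / 2) - (m - 1) * ((c₀ ((1 + η) / 2) - 1) / 2) - ε) *
            (N t (t + H) : ℝ) ≤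
          ((runs m t (t + H) (d / Real.log T) (K / Real.log T)).ncard : ℝ)) :=
  ⟨part1, part2, part3⟩

end Pool.Agent.Results.MP_af3d17_nt.RunsOfNormalGaps
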