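import Pool.Agent.U196.SH.NearB
import Pool.Agent.U196.GP.LdC
import Pool.Agent.U761.SZ.SARG

set_option autoImplicit false

/-!
# Small gaps between ordinates at every value and every extreme value of zeta

Let `Z` be Hardy's function and `log ζ(1/2 + it) = log |ζ(1/2 + it)| + i π S(t)`. Without any hypothesis: there are absolute constants
`H, d, c, K, C > 0` such that for all large `T`, both signs `σ` and EVERY complex `z` with `|z| ≤ c √(log T / log log T)` the set of the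
`t` of `[T, 2T]` such that

* `log ζ(1/2 + it)` is `z` up to `K √(log log T)`,
* `Z(t)` has the sign `σ`, and `t` is at distance at least `d / log T` from all zeros,
* two zeros (with multiplicity) have ordinates at distance at most `H / log T` from `t` and at most `0.825` mean spacings from each
  other, and the number of the zeros with `|γ - t| ≤ H / log T` is at most twice the mean,

has measure at least `T exp (-C (1 + |z|² / log (2 + log T / ((1 + |z|²) log log T))))`.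

So gaps which are smaller than the mean by a constant factor occur next to values of zeta of every size and argument, the extreme ones
included (`|ζ| ≥ exp (c √(log T / log log T))`, `|ζ| ≤ exp (-c √(log T / log log T))`, `S(t)` and `-S(t)` at least
`c √(log T / log log T)`), for both signs of `Z`.

Idea: the points of one sign carry a positive share of the mass of EVERY short Dirichlet polynomial (`U196/SN`, `U196/SH`, sibling
`MP_112ba8_nt.PositiveAndNegativeValues`); the points without such a gap nearby carry a small share (helper85's law of large numbers,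
`U85/Ml`, sibling `MP_ca0a54_nt.MicroscopicWindows`); what remains contains large deviations of `log ζ` in every direction, since
resonators directed at a complex number are short Dirichlet polynomials (helper761, `U761/SZ`, sibling `MP_4e5e8a_nt.EveryDirection`,
and `U196/GP`, sibling `MP_8958e8_nt.ZeroStatisticsAtExtremeValues`).
-/

namespace Pool.Agent.Results.MP_af3d17_nt.SmallGapsAtEveryValue

open Filter Topology MeasureTheory Complex

noncomputable section

/-- the phase `exp (i ϑ(t))`, with `ϑ(t) = arg Γ(1/4 + i t / 2) - (t / 2) log π` -/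
def phase (t : ℝ) : ℂ :=
  Gamma (1 / 4 + I * t / 2) / ‖Gamma (1 / 4 + I * t / 2)‖ * cexp (-(I * (t / 2) * Real.log Real.pi))

/-- Hardy's function `Z(t) = exp (i ϑ(t)) ζ(1/2 + i t)`, a real number; the theorem contains the proof that the product is real -/
def Z (t : ℝ) : ℝ := (phase t * riemannZeta (1 / 2 + I * t)).re

/-- `S(t) = (1/π) arg ζ(1/2 + it)`, by continuous variation along the segments from `2` to `2 + it` and from `2 + it` to
`1/2 + it`: `(1/π) Im ∫ (ζ'/ζ)(s) ds` along this path -/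
def S (t : ℝ) : ℝ := 1 / Real.pi * ((∫ u in (0 : ℝ)..t, (logDeriv riemannZeta ((2 : ℂ) + u * I)).re) -
  ∫ x in (1 / 2 : ℝ)..2, (logDeriv riemannZeta ((x : ℂ) + t * I)).im)

/-- `log ζ(1/2 + it) = log |ζ(1/2 + it)| + i π S(t)` -/
def logZeta (t : ℝ) : ℂ := (Real.log ‖riemannZeta (1 / 2 + t * I)‖ : ℂ) + (Real.pi * S t : ℝ) * I

/-- the nontrivial zeros of zeta with `|γ - t| ≤ r` -/
def zeros (t r : ℝ) : Set ℂ := {s : ℂ | riemannZeta s = 0 ∧ 0 < s.re ∧ s.re < 1 ∧ |s.im - t| ≤ r}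

/-- their number, with multiplicity -/
def count (t r : ℝ) : ℕ := ∑ᶠ s ∈ zeros t r, analyticOrderNatAt riemannZeta s

/-- two zeros with `|γ - t| ≤ r`, counted with multiplicity, have ordinates which differ by at most `l` -/
def SmallGap (t r l : ℝ) : Prop :=
  ∃ s ∈ zeros t r, ∃ s' ∈ zeros t r, |s.im - s'.im| ≤ l ∧ (s ≠ s' ∨ 2 ≤ analyticOrderNatAt riemannZeta s)

/-- the points of `[T, 2T]` with `σ Z > 0`, at distance at least `d / log T` from all nontrivial zeros, next to a pair of zeros closer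
than `0.825` mean spacings, and with at most twice the mean number of zeros nearby -/
def points (d H σ T : ℝ) : Set ℝ := {t : ℝ | T ≤ t ∧ t ≤ 2 * T ∧ 0 < σ * Z t ∧
  (∀ s : ℂ, riemannZeta s = 0 → 0 < s.re → s.re < 1 → d / Real.log T ≤ ‖s - (1 / 2 + I * t)‖) ∧
  SmallGap t (H / Real.log T) (0.825 * (2 * Real.pi / Real.log T)) ∧
  (count t (H / Real.log T) : ℝ) ≤ 2 * (H / Real.pi)}

lemma Z_real (t : ℝ) : (Z t : ℂ) = phase t * riemannZeta (1 / 2 + I * t) := Pool.Agent.R304.SG.Z_re t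

theorem ae_eq : ∀ᵐ t : ℝ, logZeta t = Pool.Agent.U761.SZ.Lz t := by
  filter_upwards [Pool.Agent.U761.SZ.ae_piS] with t ht
  have h1 : Real.pi * S t = Pool.Agent.U761.SZ.aS t := by
    rw [← ht]
    unfold S Pool.Agent.U761.SZ.piS
    rw [← mul_assoc, mul_one_div_cancel Real.pi_ne_zero, one_mul]
  unfold logZeta Pool.Agent.U761.SZ.Lz
  rw [h1]
  apply Complex.ext <;> simp [Pool.Agent.Q97.UM.zt]

/-- `K √(log H) ≤ H / π` for large `H` -/
theorem large (K : ℝ) : ∃ H₁ : ℝ, ∀ H : ℝ, H₁ ≤ H → K * Real.sqrt (Real.log H) ≤ H / Real.pi := by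
  refine ⟨max 1 ((K * Real.pi) ^ 2), fun H hH => ?_⟩
  have h1 : 1 ≤ H := (le_max_left _ _).trans hH
  have h2 : (K * Real.pi) ^ 2 ≤ H := (le_max_right _ _).trans hH
  have h3 : Real.sqrt (Real.log H) ≤ Real.sqrt H := Real.sqrt_le_sqrt ((Real.log_le_sub_one_of_pos (by linarith)).trans (by linarith))
  have h4 : |K| * Real.pi ≤ Real.sqrt H := by
    refine Real.le_sqrt_of_sq_le ?_
    rw [mul_pow, sq_abs, ← mul_pow]
    exact h2
  have h5 : K * Real.sqrt (Real.log H) * Real.pi ≤ H := by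
    calc K * Real.sqrt (Real.log H) * Real.pi ≤ |K| * Real.sqrt H * Real.pi := by
          refine mul_le_mul_of_nonneg_right ?_ Real.pi_pos.le
          exact (mul_le_mul_of_nonneg_right (le_abs_self K) (Real.sqrt_nonneg _)).trans
            (mul_le_mul_of_nonneg_left h3 (abs_nonneg K))
      _ = (|K| * Real.pi) * Real.sqrt H := by ring
      _ ≤ Real.sqrt H * Real.sqrt H := mul_le_mul_of_nonneg_right h4 (Real.sqrt_nonneg _)
      _ = H := Real.mul_self_sqrt (by linarith)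
  rw [le_div_iff₀ Real.pi_pos]
  exact h5

/-- **Small gaps at every value.** -/
theorem result :
    (∀ t : ℝ, (Z t : ℂ) = phase t * riemannZeta (1 / 2 + I * t)) ∧
    ∃ H₀ d : ℝ, 0 < H₀ ∧ 0 < d ∧ ∀ H : ℝ, H₀ ≤ H → ∃ c K C T₀ : ℝ, 0 < c ∧ 0 < K ∧ 0 < C ∧ ∀ T : ℝ, T₀ ≤ T →
      ∀ σ : ℝ, σ = 1 ∨ σ = -1 → ∀ z : ℂ, ‖z‖ ≤ c * Real.sqrt (Real.log T / Real.log (Real.log T)) →
        T * Real.exp (-(C * (1 + ‖z‖ ^ 2 / Real.log (2 + Real.log T / ((1 + ‖z‖ ^ 2) * Real.log (Real.log T)))))) ≤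
          volume.real {t : ℝ | t ∈ points d H σ T ∧ ‖logZeta t - z‖ ≤ K * Real.sqrt (Real.log (Real.log T))} := by
  classical
  refine ⟨Z_real, ?_⟩
  obtain ⟨d, θ₁, c₀, hd, hθ₁, -, hc₀, hm⟩ := Pool.Agent.U196.SH.mass'
  obtain ⟨K₁, hK₁, hnear⟩ := Pool.Agent.U196.SH.nearS hθ₁ hc₀ hm
  obtain ⟨H₁, hH₁, hnear⟩ := hnear (1 / 4) (by norm_num) 1 one_pos
  obtain ⟨H₂, hH₂⟩ := large K₁
  refine ⟨max H₁ H₂, d, lt_of_lt_of_le (by linarith) (le_max_left _ _), hd, fun H hH => ?_⟩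
  obtain ⟨θ₂, hθ₂, Sm, hSm, hSS, hSN, hV⟩ := hnear H ((le_max_left _ _).trans hH)
  have hcount := hH₂ H ((le_max_right _ _).trans hH)
  have hc2 : 0 < c₀ / 2 := by positivity
  have key : ∀ (σ : ℝ) (hσ : σ = 1 ∨ σ = -1), ∃ c K C : ℝ, 0 < c ∧ 0 < K ∧ 0 < C ∧ ∀ᶠ T : ℝ in atTop, ∀ z : ℂ,
      ‖z‖ ≤ c * Real.sqrt (Real.log T / Real.log (Real.log T)) →
        T * Real.exp (-(C * (1 + ‖z‖ ^ 2 / Real.log (2 + Real.log T / ((1 + ‖z‖ ^ 2) * Real.log (Real.log T)))))) ≤
          volume.real {t : ℝ | t ∈ points d H σ T ∧ ‖logZeta t - z‖ ≤ K * Real.sqrt (Real.log (Real.log T))} := by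
    intro σ hσ
    have hm' : Pool.Agent.U196.GP.HG (fun T => Sm ⟨σ, hσ⟩ T) θ₂ (c₀ / 2) := by
      filter_upwards [hV] with T hT N hN b
      exact hT ⟨σ, hσ⟩ N hN b
    obtain ⟨c, K, C, hc, hK, hC, h⟩ := Pool.Agent.U196.GP.ldC hθ₂ hc2 (fun T => hSm ⟨σ, hσ⟩ T)
      (fun T => (hSS ⟨σ, hσ⟩ T).trans (Pool.Agent.U196.SH.SS_sub d σ T)) hm'
    refine ⟨c, K, C, hc, hK, hC, ?_⟩
    filter_upwards [h] with T hT z hz
    refine (hT z hz).trans ?_
    rw [measureReal_def]
    have hfin : volume {t : ℝ | t ∈ points d H σ T ∧ ‖logZeta t - z‖ ≤ K * Real.sqrt (Real.log (Real.log T))} ≠ ⊤ := by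
      have hsub : {t : ℝ | t ∈ points d H σ T ∧ ‖logZeta t - z‖ ≤ K * Real.sqrt (Real.log (Real.log T))} ⊆
          Set.Icc T (2 * T) := fun t ht => ⟨ht.1.1, ht.1.2.1⟩
      refine measure_ne_top_of_subset hsub ?_
      rw [Real.volume_Icc]
      exact ENNReal.ofReal_ne_top
    refine ENNReal.toReal_mono hfin ?_
    refine measure_mono_ae ?_
    filter_upwards [ae_eq] with t ht h1
    obtain ⟨h2, h3⟩ := h1
    have h4 := hSS ⟨σ, hσ⟩ T h2
    obtain ⟨-, n2, n3⟩ := hSN ⟨σ, hσ⟩ T t h2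
    refine ⟨⟨h4.1, h4.2.1, h4.2.2.1, h4.2.2.2, n2, ?_⟩, ?_⟩
    · have n4 : (count t (H / Real.log T) : ℝ) - H / Real.pi ≤ K₁ * Real.sqrt (Real.log H) := (le_abs_self _).trans n3
      linarith
    · rw [ht]
      exact h3
  obtain ⟨c₁, K₂, C₁, hc₁, hK₂, hC₁, h₁⟩ := key 1 (Or.inl rfl)
  obtain ⟨c₂, K₃, C₂, hc₂, hK₃, hC₂, h₂⟩ := key (-1) (Or.inr rfl)
  have hev := h₁.and (h₂.and (eventually_ge_atTop (16 : ℝ)))
  rw [Filter.eventually_atTop] at hev
  obtain ⟨T₀, hT₀⟩ := hev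
  refine ⟨min c₁ c₂, max K₂ K₃, max C₁ C₂, T₀, lt_min hc₁ hc₂, lt_max_of_lt_left hK₂, lt_max_of_lt_left hC₁,
    fun T hT σ hσ z hz => ?_⟩
  obtain ⟨e1, e2, hT16⟩ := hT₀ T hT
  have hlog1 : 1 < Real.log T := by
    have h0 : Real.exp 1 < T := lt_of_lt_of_le Real.exp_one_lt_d9 (by linarith)
    rw [← Real.log_exp 1]
    exact Real.log_lt_log (Real.exp_pos 1) h0
  have hll : 0 < Real.log (Real.log T) := Real.log_pos hlog1
  have hfin : ∀ K : ℝ, volume {t : ℝ | t ∈ points d H σ T ∧ ‖logZeta t - z‖ ≤ K * Real.sqrt (Real.log (Real.log T))} ≠ ⊤ :=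
    by
    intro K
    have hsub : {t : ℝ | t ∈ points d H σ T ∧ ‖logZeta t - z‖ ≤ K * Real.sqrt (Real.log (Real.log T))} ⊆
        Set.Icc T (2 * T) := fun t ht => ⟨ht.1.1, ht.1.2.1⟩
    refine measure_ne_top_of_subset hsub ?_
    rw [Real.volume_Icc]
    exact ENNReal.ofReal_ne_top
  have hq : 0 ≤ 1 + ‖z‖ ^ 2 / Real.log (2 + Real.log T / ((1 + ‖z‖ ^ 2) * Real.log (Real.log T))) := by
    have h0 : 0 ≤ Real.log (2 + Real.log T / ((1 + ‖z‖ ^ 2) * Real.log (Real.log T))) := by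
      refine Real.log_nonneg ?_
      have : 0 ≤ Real.log T / ((1 + ‖z‖ ^ 2) * Real.log (Real.log T)) := by positivity
      linarith
    positivity
  have mono : ∀ c' K' C' : ℝ, min c₁ c₂ ≤ c' → K' ≤ max K₂ K₃ → C' ≤ max C₁ C₂ →
      (∀ z : ℂ, ‖z‖ ≤ c' * Real.sqrt (Real.log T / Real.log (Real.log T)) →
        T * Real.exp (-(C' * (1 + ‖z‖ ^ 2 / Real.log (2 + Real.log T / ((1 + ‖z‖ ^ 2) * Real.log (Real.log T)))))) ≤
          volume.real {t : ℝ | t ∈ points d H σ T ∧ ‖logZeta t - z‖ ≤ K' * Real.sqrt (Real.log (Real.log T))}) →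
      T * Real.exp (-(max C₁ C₂ * (1 + ‖z‖ ^ 2 / Real.log (2 + Real.log T / ((1 + ‖z‖ ^ 2) * Real.log (Real.log T)))))) ≤
          volume.real {t : ℝ | t ∈ points d H σ T ∧ ‖logZeta t - z‖ ≤ max K₂ K₃ * Real.sqrt (Real.log (Real.log T))} := by
    intro c' K' C' hc' hK' hC' h
    have a1 := h z (hz.trans (mul_le_mul_of_nonneg_right hc' (Real.sqrt_nonneg _)))
    refine le_trans ?_ (a1.trans ?_)
    · refine mul_le_mul_of_nonneg_left (Real.exp_le_exp.mpr (neg_le_neg (mul_le_mul_of_nonneg_right hC' hq))) (by linarith)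
    · rw [measureReal_def, measureReal_def]
      refine ENNReal.toReal_mono (hfin _) (measure_mono fun t ht => ⟨ht.1, ht.2.trans ?_⟩)
      exact mul_le_mul_of_nonneg_right hK' (Real.sqrt_nonneg _)
  rcases hσ with rfl | rfl
  · exact mono c₁ K₂ C₁ (min_le_left _ _) (le_max_left _ _) (le_max_left _ _) e1
  · exact mono c₂ K₃ C₂ (min_le_right _ _) (le_max_right _ _) (le_max_right _ _) e2

end

end Pool.Agent.Results.MP_af3d17_nt.SmallGapsAtEveryValue
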